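import Pool.Agent.U759.TP.Dom
set_option autoImplicit false

/-!
The curve `N(z) = λ G(x) M(z)` is smooth for all large `λ`, if `G` is separable.
-/

namespace Pool.Agent.U759.TP

open Polynomial

variable {K : Type*} [Field K] {k r : ℕ} {D : Dat K k r}

/-- At all complex points `(x, z)` (over `σ`) of the curve `N(z) = λ G(x) M(z)` one of the partial
derivatives `λ G'(x) M(z)` and `N'(z) - λ G(x) M'(z)` is not zero. -/
def Smooth (σ : K →+* ℂ) (D : Dat K k r) (lam : K) : Prop :=
  ∀ x z : ℂ, D.N.eval₂ σ z = σ lam * D.G.eval₂ σ x * D.M.eval₂ σ z →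
    σ lam * (derivative D.G).eval₂ σ x * D.M.eval₂ σ z ≠ 0 ∨
    (derivative D.N).eval₂ σ z - σ lam * D.G.eval₂ σ x * (derivative D.M).eval₂ σ z ≠ 0

theorem wronskian_ne_zero {N M : ℂ[X]} (hN : N.Monic) (hM : M.Monic)
    (h : M.natDegree < N.natDegree) : derivative N * M - N * derivative M ≠ 0 := by
  intro h0
  obtain ⟨n, hn⟩ : ∃ n, N.natDegree = n + 1 := ⟨N.natDegree - 1, by omega⟩
  have h1 : (derivative N * M).coeff (n + M.natDegree) = n + 1 := by
    rw [coeff_mul_add_eq_of_natDegree_le (by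
      have := natDegree_derivative_le N
      omega) le_rfl, coeff_derivative, ← hn, hN.coeff_natDegree, hM.coeff_natDegree]
    ring
  have h2 : (N * derivative M).coeff (n + M.natDegree) = M.natDegree := by
    rcases Nat.eq_zero_or_pos M.natDegree with h3 | h3
    · have h4 : derivative M = 0 := by
        rw [eq_C_of_natDegree_eq_zero h3, derivative_C]
      rw [h4, mul_zero, coeff_zero, h3, Nat.cast_zero]
    · obtain ⟨s, hs⟩ : ∃ s, M.natDegree = s + 1 := ⟨M.natDegree - 1, by omega⟩
      have e : n + M.natDegree = N.natDegree + s := by omega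
      rw [e, coeff_mul_add_eq_of_natDegree_le le_rfl (by
        have := natDegree_derivative_le M
        omega), coeff_derivative, ← hs, hN.coeff_natDegree, hM.coeff_natDegree, hs]
      push_cast
      ring
  have h3 := congrArg (fun p => p.coeff (n + M.natDegree)) h0
  simp only [coeff_sub, coeff_zero] at h3
  rw [h1, h2, sub_eq_zero] at h3
  have h4 : n + 1 = M.natDegree := by exact_mod_cast h3
  omega

theorem exists_lower {S : Finset ℂ} {g : ℂ → ℂ} (h : ∀ x ∈ S, g x ≠ 0) :
    ∃ c : ℝ, 0 < c ∧ ∀ x ∈ S, c ≤ ‖g x‖ := by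
  rcases S.eq_empty_or_nonempty with hS | hS
  · subst hS
    exact ⟨1, one_pos, fun x hx => absurd hx (Finset.notMem_empty x)⟩
  · obtain ⟨x, hx, hmin⟩ := Finset.exists_min_image S (fun x => ‖g x‖) hS
    exact ⟨‖g x‖, norm_pos_iff.2 (h x hx), hmin⟩

theorem exists_smooth (σ : K →+* ℂ) (H : D.Ok) (hsep : D.G.Separable) :
    ∃ C : ℝ, ∀ lam : K, C ≤ ‖σ lam‖ → Smooth σ D lam := by
  classical
  have hev : ∀ (p : K[X]) (z : ℂ), p.eval₂ σ z = (p.map σ).eval z := fun p z =>
    (eval_map σ z).symm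
  have hNm : (D.N.map σ).Monic := H.monicN.map σ
  have hMm : (D.M.map σ).Monic := H.monicM.map σ
  have hdeg : (D.M.map σ).natDegree < (D.N.map σ).natDegree := by
    rw [natDegree_map, natDegree_map, H.natDegreeM]
    exact H.deg
  set W : ℂ[X] := derivative (D.N.map σ) * D.M.map σ - D.N.map σ * derivative (D.M.map σ) with hW
  have hW0 : W ≠ 0 := wronskian_ne_zero hNm hMm hdeg
  set T : ℝ := 1 + ∑ z ∈ W.roots.toFinset, ‖(D.N.map σ).eval z / (D.M.map σ).eval z‖ with hT
  have hT1 : 0 < T := by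
    have : 0 ≤ ∑ z ∈ W.roots.toFinset, ‖(D.N.map σ).eval z / (D.M.map σ).eval z‖ :=
      Finset.sum_nonneg fun _ _ => norm_nonneg _
    linarith
  have hG0 : derivative (D.G.map σ) ≠ 0 := by
    intro h
    obtain ⟨β, hβ⟩ : ∃ β, ((D.g 0).map σ).eval β = 0 := by
      refine IsAlgClosed.exists_root _ ?_
      rw [degree_map, degree_eq_natDegree (H.monicg 0).ne_zero]
      exact_mod_cast (H.degg 0).ne'
    exact H.G_simple σ hβ (by rw [h, eval_zero])
  obtain ⟨c, hc, hcG⟩ := exists_lower (S := (derivative (D.G.map σ)).roots.toFinset)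
    (g := fun x => (D.G.map σ).eval x) (fun x hx h => by
      have h1 : (derivative (D.G.map σ)).eval x = 0 :=
        (mem_roots hG0).1 (Multiset.mem_toFinset.1 hx)
      have h2 : (D.G.map σ).Separable := hsep.map
      obtain ⟨u, v, huv⟩ := h2
      have h3 := congrArg (eval x) huv
      rw [eval_add, eval_mul, eval_mul, eval_one, h, h1, mul_zero, mul_zero, add_zero] at h3
      exact zero_ne_one h3)
  refine ⟨T / c, fun lam hlam x z hxz => ?_⟩
  rw [hev, hev, hev] at hxz
  have hlpos : 0 < ‖σ lam‖ := (div_pos hT1 hc).trans_le hlam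
  have hl0 : σ lam ≠ 0 := norm_pos_iff.1 hlpos
  by_contra hcon
  push Not at hcon
  obtain ⟨h1, h2⟩ := hcon
  rw [hev, hev, ← derivative_map] at h1
  rw [hev, hev, hev, ← derivative_map, ← derivative_map] at h2
  have hM0 : (D.M.map σ).eval z ≠ 0 := by
    intro h
    rw [h, mul_zero] at hxz
    exact H.M_ne_zero σ hxz h
  have hG' : (derivative (D.G.map σ)).eval x = 0 := by
    rcases mul_eq_zero.1 h1 with h | h
    · exact (mul_eq_zero.1 h).resolve_left hl0
    · exact absurd h hM0
  have hWz : W.eval z = 0 := by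
    rw [hW, eval_sub, eval_mul, eval_mul, hxz]
    linear_combination (D.M.map σ).eval z * h2
  have hzm : z ∈ W.roots.toFinset := Multiset.mem_toFinset.2 ((mem_roots hW0).2 hWz)
  have hxm : x ∈ (derivative (D.G.map σ)).roots.toFinset :=
    Multiset.mem_toFinset.2 ((mem_roots hG0).2 hG')
  have h3 : ‖(D.N.map σ).eval z / (D.M.map σ).eval z‖ < T := by
    have h4 := Finset.single_le_sum (f := fun z => ‖(D.N.map σ).eval z / (D.M.map σ).eval z‖)
      (fun _ _ => norm_nonneg _) hzm
    linarith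
  have h4 : (D.N.map σ).eval z / (D.M.map σ).eval z = σ lam * (D.G.map σ).eval x := by
    rw [hxz, mul_div_cancel_right₀ _ hM0]
  rw [h4, norm_mul] at h3
  have h5 := hcG x hxm
  rw [div_le_iff₀ hc] at hlam
  nlinarith

end Pool.Agent.U759.TP
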