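import Pool.Agent.TH826.UH.Pair
set_option autoImplicit false

/-!
Local branches of polynomials at simple zeros, winding numbers of polynomials on small circles, and
bounds for the regulator integrals.
-/

namespace Pool.Agent.U759.TP

open Filter Topology Polynomial MeasureTheory Set

open scoped Real

open Pool.Agent.TH826.MK (circ norm_circ contDiff_circ circ_add_one One one_lin wd
  circ_sub_ne_zero)

open Pool.Agent.TH826.UH

theorem contDiff_eval (G : ℂ[X]) {n : WithTop ℕ∞} : ContDiff ℂ n fun x => G.eval x := by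
  have h := Polynomial.contDiff_aeval (𝕜 := ℂ) G n
  exact h

theorem contDiff_eval_real (G : ℂ[X]) {n : WithTop ℕ∞} : ContDiff ℝ n fun x : ℂ => G.eval x :=
  (contDiff_eval G).restrict_scalars ℝ

/-- The branch of `G⁻¹` at a simple zero `b` of `G`. -/
theorem exists_branch (G : ℂ[X]) {b : ℂ} (h0 : G.eval b = 0) (h1 : (derivative G).eval b ≠ 0)
    {V : Set ℂ} (hV : V ∈ 𝓝 b) :
    ∃ (δ : ℝ) (ψ : ℂ → ℂ), 0 < δ ∧ ψ 0 = b ∧
      ∀ w, ‖w‖ < δ → ContDiffAt ℂ 2 ψ w ∧ G.eval (ψ w) = w ∧ ψ w ∈ V := by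
  have hf : ContDiffAt ℂ 2 (fun x => G.eval x) b := (contDiff_eval G).contDiffAt
  have hf' := (G.hasDerivAt b).hasFDerivAt_equiv h1
  have hn : (2 : WithTop ℕ∞) ≠ 0 := by norm_num
  set ψ := hf.localInverse hf' hn with hψ
  have e0 : ψ 0 = b := by
    have := hf.localInverse_apply_image hf' hn
    simp only [h0] at this
    exact this
  have hc : ContDiffAt ℂ 2 ψ 0 := by
    have := hf.to_localInverse hf' hn
    simp only [h0] at this
    exact this
  have hr : ∀ᶠ y in 𝓝 (0 : ℂ), G.eval (ψ y) = y := by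
    have := (hf.hasStrictFDerivAt' hf' hn).eventually_right_inverse
    simp only [h0] at this
    exact this
  have hv : ∀ᶠ y in 𝓝 (0 : ℂ), ψ y ∈ V := by
    have h2 := hc.continuousAt
    rw [ContinuousAt, e0] at h2
    exact h2 hV
  have h3 := (hc.eventually (by simp)).and (hr.and hv)
  obtain ⟨δ, hδ, h4⟩ := Metric.eventually_nhds_iff.1 h3
  exact ⟨δ, ψ, hδ, e0, fun w hw => h4 (by simpa using hw)⟩

/-- The integral of `d arg F`. -/
noncomputable def wn (F : ℝ → ℂ) : ℝ := ∫ s in (0 : ℝ)..1, (deriv F s / F s).im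

variable {F H : ℝ → ℂ}

theorem pr_const_eq (a : ℂ) : pr F (fun _ => a) = -(Real.log ‖a‖ * wn F) := by
  unfold pr wn
  simp only [deriv_const, zero_div, Complex.zero_im, mul_zero, zero_sub]
  rw [intervalIntegral.integral_neg, intervalIntegral.integral_const_mul]

theorem wn_mul (hF : NZ F) (hH : NZ H) : wn (fun s => F s * H s) = wn F + wn H := by
  unfold wn
  rw [← intervalIntegral.integral_add (hF.cont_im.intervalIntegrable _ _)
    (hH.cont_im.intervalIntegrable _ _)]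
  refine intervalIntegral.integral_congr fun s _ => ?_
  simp only
  rw [hF.ld_mul hH, Complex.add_im]

theorem wn_one : wn (fun _ => 1) = 0 := by
  unfold wn
  simp

variable {β : ℂ} {ε : ℝ}

/-- the circle of radius `ε` with the centre `β` -/
noncomputable def cir (β : ℂ) (ε : ℝ) (t : ℝ) : ℂ := β + circ ε t

theorem cir_sub (a : ℂ) (t : ℝ) : cir β ε t - a = circ ε t - (a - β) := by
  unfold cir
  ring

theorem cir_add_one (t : ℝ) : cir β ε (t + 1) = cir β ε t := by
  unfold cir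
  rw [circ_add_one]

theorem contDiff_cir {n : WithTop ℕ∞} : ContDiff ℝ n (cir β ε) :=
  contDiff_const.add (contDiff_circ ε)

theorem norm_cir_sub (hε : 0 ≤ ε) (t : ℝ) : ‖cir β ε t - β‖ = ε := by
  unfold cir
  rw [add_sub_cancel_left, norm_circ hε]

theorem nz_lin (hε : 0 < ε) {a : ℂ} (ha : ‖a - β‖ ≠ ε) : NZ fun t => cir β ε t - a := by
  have e : (fun t => cir β ε t - a) = fun t => circ ε t - (a - β) := funext fun t => cir_sub a t
  rw [e]
  exact nz_circ_sub hε ha

theorem wn_lin (hε : 0 < ε) {a : ℂ} (ha : ‖a - β‖ ≠ ε) :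
    wn (fun t => cir β ε t - a) = 2 * π * wd ε (a - β) := by
  have e : (fun t => cir β ε t - a) = fun t => circ ε t - (a - β) := funext fun t => cir_sub a t
  rw [e]
  have h1 := (one_lin hε ha).wind
  have hc := (nz_circ_sub hε ha).cont_ld
  rw [integral_Icc_eq_integral_Ioc, ← intervalIntegral.integral_of_le zero_le_one] at h1
  unfold wn
  have h2 := Complex.imCLM.intervalIntegral_comp_comm
    (hc.intervalIntegrable (μ := volume) 0 1)
  rw [h1] at h2
  have h3 : (∫ s in (0 : ℝ)..1, Complex.imCLM (deriv (fun s => circ ε s - (a - β)) s /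
      (circ ε s - (a - β)))) = ∫ s in (0 : ℝ)..1, (deriv (fun s => circ ε s - (a - β)) s /
      (circ ε s - (a - β))).im := rfl
  rw [← h3, h2]
  simp

theorem nz_wn_prod (hε : 0 < ε) (s : Multiset ℂ) (h : ∀ a ∈ s, ‖a - β‖ ≠ ε) :
    NZ (fun t => (s.map fun a => cir β ε t - a).prod) ∧
      wn (fun t => (s.map fun a => cir β ε t - a).prod) =
        2 * π * (s.map fun a => wd ε (a - β)).sum := by
  induction s using Multiset.induction_on with
  | empty => exact ⟨⟨by simpa using contDiff_const, by simp⟩, by simpa using wn_one⟩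
  | cons a s ih =>
    obtain ⟨h1, h2⟩ := ih fun a ha => h a (Multiset.mem_cons_of_mem ha)
    have h3 := h a (Multiset.mem_cons_self a s)
    simp only [Multiset.map_cons, Multiset.prod_cons, Multiset.sum_cons]
    refine ⟨(nz_lin hε h3).mul h1, ?_⟩
    rw [wn_mul (nz_lin hε h3) h1, wn_lin hε h3, h2]
    ring

/-- A monic polynomial on a circle. -/
theorem nz_wn_poly (hε : 0 < ε) {p : ℂ[X]} (hp : p.Monic) (h : ∀ a, p.eval a = 0 → ‖a - β‖ ≠ ε) :
    NZ (fun t => p.eval (cir β ε t)) ∧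
      wn (fun t => p.eval (cir β ε t)) = 2 * π * (p.roots.map fun a => wd ε (a - β)).sum := by
  have e : (fun t => p.eval (cir β ε t)) =
      fun t => (p.roots.map fun a => cir β ε t - a).prod :=
    funext fun t => (IsAlgClosed.splits p).eval_eq_prod_roots_of_monic hp _
  rw [e]
  exact nz_wn_prod hε _ fun a ha => h a (by
    have := (mem_roots'.1 ha).2
    exact this)

theorem wn_poly_zero (hε : 0 < ε) {p : ℂ[X]} (hp : p.Monic)
    (h : ∀ a, p.eval a = 0 → ε < ‖a - β‖) : wn (fun t => p.eval (cir β ε t)) = 0 := by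
  rw [(nz_wn_poly hε hp fun a ha => (h a ha).ne').2]
  have h1 : (p.roots.map fun a => wd ε (a - β)) = p.roots.map fun _ => (0 : ℝ) := by
    refine Multiset.map_congr rfl fun a ha => ?_
    unfold wd
    rw [if_neg (not_lt.2 (h a (mem_roots'.1 ha).2).le)]
  rw [h1]
  simp

theorem wn_poly_pos (hε : 0 < ε) {p : ℂ[X]} (hp : p.Monic)
    (h : ∀ a, p.eval a = 0 → ‖a - β‖ ≠ ε) (h0 : p.eval β = 0) :
    2 * π ≤ wn (fun t => p.eval (cir β ε t)) := by
  rw [(nz_wn_poly hε hp h).2]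
  have h1 : (1 : ℝ) ≤ (p.roots.map fun a => wd ε (a - β)).sum := by
    have hmem : β ∈ p.roots := (mem_roots hp.ne_zero).2 h0
    obtain ⟨s, hs⟩ := Multiset.exists_cons_of_mem hmem
    rw [hs, Multiset.map_cons, Multiset.sum_cons]
    have h2 : wd ε (β - β) = 1 := by
      unfold wd
      rw [sub_self, norm_zero, if_pos hε]
    have h3 : 0 ≤ (s.map fun a => wd ε (a - β)).sum := by
      refine Multiset.sum_nonneg fun x hx => ?_
      obtain ⟨a, -, rfl⟩ := Multiset.mem_map.1 hx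
      unfold wd
      split_ifs <;> norm_num
    rw [h2]
    linarith
  have := Real.pi_pos
  nlinarith

/-- A uniform bound for the regulator integrals of `F` and `Φ(w U)`. -/
theorem exists_bound {Φ : ℂ → ℂ} {δ : ℝ} (hΦ : ∀ w, ‖w‖ < δ → ContDiffAt ℂ 2 Φ w ∧ Φ w ≠ 0)
    {F U : ℝ → ℂ} (hF : NZ F) (hU : ContDiff ℝ 2 U) {T : ℝ} (hT : 1 ≤ T) (hUT : ∀ t, ‖U t‖ ≤ T) :
    ∃ C : ℝ, 0 ≤ C ∧ ∀ w : ℂ, ‖w‖ * T ≤ δ / 2 → w ≠ 0 → |pr F fun t => Φ (w * U t)| ≤ C := by
  rcases le_or_gt δ 0 with hδ | hδ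
  · refine ⟨0, le_rfl, fun w hw hw0 => ?_⟩
    have : 0 < ‖w‖ * T := mul_pos (norm_pos_iff.2 hw0) (by linarith)
    linarith
  have hK : IsCompact (Metric.closedBall (0 : ℂ) (δ / 2)) := isCompact_closedBall _ _
  have hin : ∀ w ∈ Metric.closedBall (0 : ℂ) (δ / 2), ‖w‖ < δ := by
    intro w hw
    have := mem_closedBall_zero_iff.1 hw
    linarith
  have hcΦ : ContinuousOn Φ (Metric.closedBall (0 : ℂ) (δ / 2)) := fun w hw =>
    (hΦ w (hin w hw)).1.continuousAt.continuousWithinAt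
  have hball : ∀ w ∈ Metric.ball (0 : ℂ) δ, ContDiffAt ℂ 2 Φ w := fun w hw =>
    (hΦ w (mem_ball_zero_iff.1 hw)).1
  have hcd : ContinuousOn (deriv Φ) (Metric.closedBall (0 : ℂ) (δ / 2)) := by
    have h1 : ContDiffOn ℂ 2 Φ (Metric.ball (0 : ℂ) δ) := fun w hw =>
      (hball w hw).contDiffWithinAt
    have h2 := (h1.continuousOn_deriv_of_isOpen Metric.isOpen_ball (by norm_num))
    exact h2.mono fun w hw => mem_ball_zero_iff.2 (hin w hw)
  obtain ⟨A4, hA4⟩ := hK.exists_bound_of_continuousOn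
    (hcd.div hcΦ fun w hw => (hΦ w (hin w hw)).2)
  obtain ⟨A5, hA5⟩ := hK.exists_bound_of_continuousOn
    (f := fun w => Real.log ‖Φ w‖) ((hcΦ.norm).log fun w hw =>
      norm_ne_zero_iff.2 (hΦ w (hin w hw)).2)
  have hI : IsCompact (Icc (0 : ℝ) 1) := isCompact_Icc
  obtain ⟨A1, hA1⟩ := hI.exists_bound_of_continuousOn hF.cont_log.continuousOn
  obtain ⟨A2, hA2⟩ := hI.exists_bound_of_continuousOn hF.cont_im.continuousOn
  obtain ⟨A3, hA3⟩ := hI.exists_bound_of_continuousOn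
    (hU.continuous_deriv (by norm_num)).continuousOn
  have h0I : (0 : ℝ) ∈ Icc (0 : ℝ) 1 := ⟨le_rfl, zero_le_one⟩
  have h0K : (0 : ℂ) ∈ Metric.closedBall (0 : ℂ) (δ / 2) := by
    rw [mem_closedBall_zero_iff, norm_zero]
    linarith
  have n1 : 0 ≤ A1 := (norm_nonneg _).trans (hA1 0 h0I)
  have n2 : 0 ≤ A2 := (norm_nonneg _).trans (hA2 0 h0I)
  have n3 : 0 ≤ A3 := (norm_nonneg _).trans (hA3 0 h0I)
  have n4 : 0 ≤ A4 := (norm_nonneg _).trans (hA4 0 h0K)
  have n5 : 0 ≤ A5 := (norm_nonneg _).trans (hA5 0 h0K)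
  refine ⟨A1 * (A4 * (δ / 2 * A3)) + A5 * A2, by positivity, fun w hw hw0 => ?_⟩
  have hwδ : ‖w‖ ≤ δ / 2 := by
    have := norm_nonneg w
    nlinarith
  unfold pr
  have hb : ∀ t ∈ Set.uIoc (0 : ℝ) 1, ‖Real.log ‖F t‖ * (deriv (fun t => Φ (w * U t)) t /
      Φ (w * U t)).im - Real.log ‖Φ (w * U t)‖ * (deriv F t / F t).im‖ ≤
      A1 * (A4 * (δ / 2 * A3)) + A5 * A2 := by
    intro t ht
    rw [Set.uIoc_of_le zero_le_one] at ht
    have htI : t ∈ Icc (0 : ℝ) 1 := ⟨ht.1.le, ht.2⟩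
    have hwU : w * U t ∈ Metric.closedBall (0 : ℂ) (δ / 2) := by
      rw [mem_closedBall_zero_iff, norm_mul]
      exact (mul_le_mul_of_nonneg_left (hUT t) (norm_nonneg w)).trans hw
    have hd : HasDerivAt (fun t => Φ (w * U t)) (deriv Φ (w * U t) * (w * deriv U t)) t := by
      have h1 : HasDerivAt U (deriv U t) t := (hU.differentiable (by norm_num) t).hasDerivAt
      have h2 : HasDerivAt Φ (deriv Φ (w * U t)) (w * U t) :=
        ((hΦ _ (hin _ hwU)).1.differentiableAt (by norm_num)).hasDerivAt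
      exact HasDerivAt.comp (𝕜 := ℝ) (𝕜' := ℂ) t (h₂ := Φ) (h := fun t => w * U t) h2
        (h1.const_mul w)
    rw [hd.deriv]
    refine (norm_sub_le _ _).trans (add_le_add ?_ ?_)
    · rw [norm_mul]
      refine mul_le_mul (hA1 t htI) ?_ (norm_nonneg _) n1
      rw [Real.norm_eq_abs]
      refine (Complex.abs_im_le_norm _).trans ?_
      have e : deriv Φ (w * U t) * (w * deriv U t) / Φ (w * U t) =
          (deriv Φ (w * U t) / Φ (w * U t)) * (w * deriv U t) := by ring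
      rw [e, norm_mul, norm_mul]
      exact mul_le_mul (hA4 _ hwU) (mul_le_mul hwδ (hA3 t htI) (norm_nonneg _) (by linarith))
        (by positivity) n4
    · rw [norm_mul]
      exact mul_le_mul (hA5 _ hwU) (hA2 t htI) (norm_nonneg _) n5
  have h := intervalIntegral.norm_integral_le_of_norm_le_const hb
  rw [sub_zero, abs_one, mul_one] at h
  exact h

end Pool.Agent.U759.TP
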