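import Pool.Agent.U759.TP.Unram
import Pool.Agent.U759.TP.Loc
set_option autoImplicit false

/-!
The coordinate ring of the curve `N(z) = λ G(x) M(z)` is a domain for all large `λ`.
-/

namespace Pool.Agent.U759.TP

open Polynomial Filter Topology Set

variable {K : Type*} [Field K] {k r : ℕ} {D : Dat K k r}

theorem Dat.Ok.monic_eqn (H : D.Ok) (lam : K) : (D.eqn lam).Monic := by
  unfold Dat.eqn
  refine (H.monicN.map C).sub_of_left (degree_lt_degree ?_)
  refine (natDegree_C_mul_le _ _).trans_lt ?_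
  rw [natDegree_map_eq_of_injective (C_injective), natDegree_map_eq_of_injective (C_injective),
    H.natDegreeM]
  exact H.deg

/-- `M` does not vanish at the zeros of `N`. -/
theorem Dat.Ok.M_ne_zero (H : D.Ok) (σ : K →+* ℂ) {z : ℂ} (hz : (D.N.map σ).eval z = 0) :
    (D.M.map σ).eval z ≠ 0 := by
  intro h
  unfold Dat.M at h
  rw [Polynomial.map_prod, Polynomial.eval_prod, Finset.prod_eq_zero_iff] at h
  obtain ⟨j, -, hj⟩ := h
  rw [Polynomial.map_pow, Polynomial.eval_pow] at hj
  have hj' := (pow_eq_zero_iff (H.pos j)).1 hj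
  obtain ⟨n, l, hn, Q, hQ⟩ := H.tors j
  have h1 := congrArg (fun p => (p.map σ).eval z) hQ
  simp only [Polynomial.map_mul, Polynomial.map_pow, Polynomial.map_sub, Polynomial.map_one,
    eval_mul, eval_pow, eval_sub, eval_one, hj', hz, zero_pow hn, zero_mul, zero_sub] at h1
  exact pow_ne_zero l (neg_ne_zero.2 one_ne_zero) h1

theorem Dat.Ok.G_zero (H : D.Ok) (σ : K →+* ℂ) {i : Fin (r + 1)} {β : ℂ}
    (hβ : ((D.g i).map σ).eval β = 0) : (D.G.map σ).eval β = 0 := by
  obtain ⟨Q, hQ⟩ := H.dvd i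
  rw [hQ, Polynomial.map_mul, eval_mul, hβ, zero_mul]

theorem Dat.Ok.G_simple (H : D.Ok) (σ : K →+* ℂ) {i : Fin (r + 1)} {β : ℂ}
    (hβ : ((D.g i).map σ).eval β = 0) : (derivative (D.G.map σ)).eval β ≠ 0 := by
  intro h
  obtain ⟨u, v, huv⟩ := H.simple i
  have h1 := congrArg (fun p => (p.map σ).eval β) huv
  simp only [Polynomial.map_add, Polynomial.map_mul, Polynomial.map_one, eval_add, eval_mul,
    eval_one, hβ, ← derivative_map, h, mul_zero, add_zero] at h1
  exact zero_ne_one h1

theorem ne_of_connected {a b : unitInterval → ℂ} (ha : Continuous a) (hb : Continuous b)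
    (hab : ∀ t, a t * b t = 0) (hn : ∀ t, ¬ (a t = 0 ∧ b t = 0)) (h0 : a 0 ≠ 0) (t : unitInterval) :
    a t ≠ 0 := by
  have hcl : IsClosed {t | a t = 0} := isClosed_eq ha continuous_const
  have hcompl : {t | a t = 0}ᶜ = {t | b t = 0} := by
    ext t
    constructor
    · intro h
      exact (mul_eq_zero.1 (hab t)).resolve_left h
    · intro h h'
      exact hn t ⟨h', h⟩
  have hop : IsOpen {t | a t = 0} := by
    rw [← isClosed_compl_iff, hcompl]
    exact isClosed_eq hb continuous_const
  rcases isClopen_iff.1 (⟨hcl, hop⟩ : IsClopen {t | a t = 0}) with h | h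
  · intro ht
    have : t ∈ {t | a t = 0} := ht
    rw [h] at this
    exact this
  · exfalso
    have : (0 : unitInterval) ∈ {t | a t = 0} := by rw [h]; exact mem_univ _
    exact h0 this

/-- The value of a polynomial in `x` and `z`. -/
noncomputable def E (σ : K →+* ℂ) (p : K[X][X]) (x z : ℂ) : ℂ :=
  p.eval₂ (Polynomial.eval₂RingHom σ x) z

theorem E_sum (σ : K →+* ℂ) (p : K[X][X]) (x z : ℂ) : E σ p x z =
    ∑ i ∈ Finset.range (p.natDegree + 1), ((p.coeff i).map σ).eval x * z ^ i := by
  unfold E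
  rw [Polynomial.eval₂_eq_sum_range]
  refine Finset.sum_congr rfl fun i _ => ?_
  rw [Polynomial.coe_eval₂RingHom, Polynomial.eval_map]

theorem E_mul (σ : K →+* ℂ) (p q : K[X][X]) (x z : ℂ) : E σ (p * q) x z = E σ p x z * E σ q x z :=
  Polynomial.eval₂_mul _ _

theorem E_eqn (σ : K →+* ℂ) (lam : K) (x z : ℂ) : E σ (D.eqn lam) x z =
    (D.N.map σ).eval z - σ lam * (D.G.map σ).eval x * (D.M.map σ).eval z := by
  unfold E Dat.eqn
  rw [Polynomial.eval₂_sub, Polynomial.eval₂_mul, Polynomial.eval₂_C, eval_map_C, eval_map_C,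
    Polynomial.coe_eval₂RingHom, Polynomial.eval₂_mul, Polynomial.eval₂_C, Polynomial.eval_map,
    Polynomial.eval_map, Polynomial.eval_map]

theorem E_cont (σ : K →+* ℂ) (p : K[X][X]) {α : Type*} [TopologicalSpace α] {X Z : α → ℂ}
    (hX : Continuous X) (hZ : Continuous Z) : Continuous fun t => E σ p (X t) (Z t) := by
  simp only [E_sum]
  exact continuous_finsetSum _ fun i _ =>
    ((((p.coeff i).map σ).continuous).comp hX).mul (hZ.pow i)

theorem E_diff (σ : K →+* ℂ) (p : K[X][X]) (z x : ℂ) :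
    DifferentiableAt ℂ (fun x => E σ p x z) x := by
  simp only [E_sum]
  exact DifferentiableAt.fun_sum fun i _ =>
    ((((p.coeff i).map σ).differentiable) x).mul_const _

theorem exists_irreducible (σ : K →+* ℂ) (H : D.Ok) :
    ∃ C : ℝ, ∀ lam : K, C ≤ ‖σ lam‖ → Irreducible (D.eqn lam) := by
  classical
  have hNm : (D.N.map σ).Monic := H.monicN.map σ
  have hNdeg : 0 < D.N.natDegree := (Nat.zero_le _).trans_lt H.deg
  have hMm : (D.M.map σ).Monic := H.monicM.map σ
  -- the zeros of `N`
  obtain ⟨α0, hα0⟩ : ∃ α, (D.N.map σ).eval α = 0 := by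
    refine IsAlgClosed.exists_root _ ?_
    rw [degree_map, degree_eq_natDegree H.monicN.ne_zero]
    exact_mod_cast hNdeg.ne'
  -- paths
  set V : Set ℂ := {z | (D.M.map σ).eval z = 0}ᶜ with hV
  have hVc : ({z | (D.M.map σ).eval z = 0} : Set ℂ).Countable := by
    refine Set.Finite.countable ?_
    refine ((D.M.map σ).roots.toFinset.finite_toSet).subset fun a ha => ?_
    simp only [Finset.mem_coe, Multiset.mem_toFinset]
    exact (mem_roots hMm.ne_zero).2 ha
  have hVp : IsPathConnected V := by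
    refine hVc.isPathConnected_compl_of_one_lt_rank ?_
    rw [Complex.rank_real_complex]
    exact Cardinal.one_lt_two
  have hpath : ∀ α : {α // (D.N.map σ).eval α = 0}, ∃ γ : Path α0 α.1, ∀ t, γ t ∈ V := by
    intro α
    have h1 := hVp.joinedIn α0 (H.M_ne_zero σ hα0) α.1 (H.M_ne_zero σ α.2)
    exact ⟨h1.somePath, h1.somePath_mem⟩
  choose γ hγ using hpath
  have hucont : ∀ α : {α // (D.N.map σ).eval α = 0},
      Continuous fun t => (D.N.map σ).eval (γ α t) / (D.M.map σ).eval (γ α t) := fun α =>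
    (((D.N.map σ).continuous).comp (γ α).continuous).div
      (((D.M.map σ).continuous).comp (γ α).continuous) fun t => hγ α t
  have hT' : ∀ α : {α // (D.N.map σ).eval α = 0}, ∃ T : ℝ, ∀ t,
      ‖(D.N.map σ).eval (γ α t) / (D.M.map σ).eval (γ α t)‖ ≤ T := by
    intro α
    obtain ⟨T, hT⟩ := (isCompact_univ (X := unitInterval)).exists_bound_of_continuousOn (hucont α).continuousOn
    exact ⟨T, fun t => hT t (mem_univ t)⟩
  choose T' hT' using hT'
  have hfin : Finite {α // (D.N.map σ).eval α = 0} := by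
    refine Set.Finite.to_subtype (s := {α | (D.N.map σ).eval α = 0}) ?_
    refine ((D.N.map σ).roots.toFinset.finite_toSet).subset fun a ha => ?_
    simp only [Finset.mem_coe, Multiset.mem_toFinset]
    exact (mem_roots hNm.ne_zero).2 ha
  have := Fintype.ofFinite {α // (D.N.map σ).eval α = 0}
  set T : ℝ := 1 + ∑ α, |T' α| with hTdef
  have hT1 : 1 ≤ T := by
    have : 0 ≤ ∑ α, |T' α| := Finset.sum_nonneg fun _ _ => abs_nonneg _
    linarith
  have hUT : ∀ α t, ‖(D.N.map σ).eval (γ α t) / (D.M.map σ).eval (γ α t)‖ ≤ T := by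
    intro α t
    have h1 : |T' α| ≤ ∑ α, |T' α| :=
      Finset.single_le_sum (f := fun α => |T' α|) (fun _ _ => abs_nonneg _) (Finset.mem_univ α)
    have h2 := hT' α t
    have h3 := le_abs_self (T' α)
    linarith
  -- the branch at a zero of `g_0`
  obtain ⟨β, hβ⟩ : ∃ β, ((D.g 0).map σ).eval β = 0 := by
    refine IsAlgClosed.exists_root _ ?_
    rw [degree_map, degree_eq_natDegree (H.monicg 0).ne_zero]
    exact_mod_cast (H.degg 0).ne'
  have hb0 : (D.G.map σ).eval β = 0 := H.G_zero σ hβ
  have hb1 : (derivative (D.G.map σ)).eval β ≠ 0 := H.G_simple σ hβ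
  obtain ⟨δ, ψ, hδ, hψ0, hψ⟩ := exists_branch (D.G.map σ) hb0 hb1
    (V := {y | (derivative (D.G.map σ)).eval y ≠ 0})
    ((derivative (D.G.map σ)).continuous.continuousAt.eventually_ne hb1)
  refine ⟨max 1 (2 * T / δ), fun lam hlam => ?_⟩
  have hl1 : 1 ≤ ‖σ lam‖ := (le_max_left _ _).trans hlam
  have hl2 : 2 * T / δ ≤ ‖σ lam‖ := (le_max_right _ _).trans hlam
  have hlpos : 0 < ‖σ lam‖ := by linarith
  have hl0 : σ lam ≠ 0 := norm_pos_iff.1 hlpos
  set w : ℂ := (σ lam)⁻¹ with hw
  have hwT : ‖w‖ * T ≤ δ / 2 := by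
    rw [hw, norm_inv, inv_mul_le_iff₀ hlpos]
    rw [div_le_iff₀ hδ] at hl2
    linarith
  set U : {α // (D.N.map σ).eval α = 0} → unitInterval → ℂ := fun α t =>
    (D.N.map σ).eval (γ α t) / (D.M.map σ).eval (γ α t) with hU
  have hlt : ∀ α t, ‖w * U α t‖ < δ := by
    intro α t
    rw [norm_mul]
    have := mul_le_mul_of_nonneg_left (hUT α t) (norm_nonneg w)
    simp only [hU]
    linarith
  have hXc : ∀ α, Continuous fun t => ψ (w * U α t) := by
    intro α
    rw [continuous_iff_continuousAt]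
    intro t
    have h1 : ContinuousAt ψ (w * U α t) := (hψ _ (hlt α t)).1.continuousAt
    exact ContinuousAt.comp (g := ψ) (f := fun t => w * U α t) h1
      (continuous_const.mul (hucont α)).continuousAt
  have key : ∀ A B : K[X][X], A.Monic → B.Monic → A * B = D.eqn lam → E σ A β α0 ≠ 0 →
      A.natDegree = 0 := by
    intro A B hA _ hAB h0
    -- `A` does not vanish at the zeros of `N`
    have hne : ∀ α, (D.N.map σ).eval α = 0 → E σ A β α ≠ 0 := by
      intro α hα
      have hU0 : U ⟨α, hα⟩ 0 = 0 := by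
        simp only [hU, Path.source, hα0, zero_div]
      have hU1 : U ⟨α, hα⟩ 1 = 0 := by
        simp only [hU, Path.target, hα, zero_div]
      have h1 := ne_of_connected (a := fun t => E σ A (ψ (w * U ⟨α, hα⟩ t)) (γ ⟨α, hα⟩ t))
        (b := fun t => E σ B (ψ (w * U ⟨α, hα⟩ t)) (γ ⟨α, hα⟩ t))
        (E_cont σ A (hXc _) (γ _).continuous) (E_cont σ B (hXc _) (γ _).continuous)
        (fun t => ?_) (fun t ht => ?_) ?_ 1
      · simp only [hU1, mul_zero, hψ0, Path.target] at h1
        exact h1
      · rw [← E_mul, hAB, E_eqn, (hψ _ (hlt _ t)).2.1]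
        have h2 : (D.M.map σ).eval (γ ⟨α, hα⟩ t) ≠ 0 := hγ ⟨α, hα⟩ t
        simp only [hU, hw]
        field_simp
        ring
      · -- the product rule
        set z := γ ⟨α, hα⟩ t with hz
        set x := ψ (w * U ⟨α, hα⟩ t) with hx
        have h2 : deriv (fun x => E σ A x z * E σ B x z) x = 0 := by
          rw [deriv_fun_mul (E_diff σ A z x) (E_diff σ B z x)]
          have h3 : E σ A x z = 0 := ht.1
          have h4 : E σ B x z = 0 := ht.2
          rw [h3, h4, mul_zero, zero_mul, add_zero]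
        have h3 : (fun x => E σ A x z * E σ B x z) = fun x =>
            (D.N.map σ).eval z - σ lam * (D.G.map σ).eval x * (D.M.map σ).eval z := by
          funext x
          rw [← E_mul, hAB, E_eqn]
        have h4 : HasDerivAt (fun x => (D.N.map σ).eval z - σ lam * (D.G.map σ).eval x *
            (D.M.map σ).eval z) (-(σ lam * (derivative (D.G.map σ)).eval x *
            (D.M.map σ).eval z)) x := by
          have h5 := ((((D.G.map σ).hasDerivAt x).const_mul (σ lam)).mul_const
            ((D.M.map σ).eval z)).const_sub ((D.N.map σ).eval z)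
          exact h5
        rw [h3, h4.deriv, neg_eq_zero] at h2
        have h5 : (derivative (D.G.map σ)).eval x ≠ 0 := (hψ _ (hlt _ t)).2.2
        exact mul_ne_zero (mul_ne_zero hl0 h5) (hγ ⟨α, hα⟩ t) h2
      · simp only [hU0, mul_zero, hψ0, Path.source]
        exact h0
    -- the polynomial `A(β, z)` has no zeros
    by_contra hdeg
    set A0 : ℂ[X] := A.map (Polynomial.eval₂RingHom σ β) with hA0
    have hA0m : A0.Monic := hA.map _
    have hA0d : A0.natDegree = A.natDegree := hA.natDegree_map _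
    obtain ⟨α, hα⟩ : ∃ α, A0.eval α = 0 := by
      refine IsAlgClosed.exists_root _ ?_
      rw [degree_eq_natDegree hA0m.ne_zero, hA0d]
      exact_mod_cast hdeg
    have hE : ∀ z, E σ A β z = A0.eval z := fun z => by
      unfold E
      rw [hA0, Polynomial.eval_map]
    have h1 : E σ (D.eqn lam) β α = 0 := by
      rw [← hAB, E_mul, hE, hα, zero_mul]
    rw [E_eqn, hb0, mul_zero, zero_mul, sub_zero] at h1
    exact hne α h1 (by rw [hE, hα])
  have hm := H.monic_eqn lam
  rw [hm.irreducible_iff_natDegree]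
  refine ⟨fun h1 => ?_, fun A B hA hB hAB => ?_⟩
  · have h2 : (D.eqn lam).natDegree = D.N.natDegree := by
      unfold Dat.eqn
      rw [natDegree_sub_eq_left_of_natDegree_lt, natDegree_map_eq_of_injective (C_injective)]
      refine (natDegree_C_mul_le _ _).trans_lt ?_
      rw [natDegree_map_eq_of_injective (C_injective),
        natDegree_map_eq_of_injective (C_injective), H.natDegreeM]
      exact H.deg
    rw [h1, natDegree_one] at h2
    omega
  · by_cases h0 : E σ A β α0 = 0
    · refine Or.inr (key B A hB hA (by rw [mul_comm, hAB]) fun h0' => ?_)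
      -- both vanish at the simple zero `β`
      have h2 : deriv (fun x => E σ A x α0 * E σ B x α0) β = 0 := by
        rw [deriv_fun_mul (E_diff σ A α0 β) (E_diff σ B α0 β), h0, h0', mul_zero, zero_mul,
          add_zero]
      have h3 : (fun x => E σ A x α0 * E σ B x α0) = fun x =>
          (D.N.map σ).eval α0 - σ lam * (D.G.map σ).eval x * (D.M.map σ).eval α0 := by
        funext x
        rw [← E_mul, hAB, E_eqn]
      have h4 := ((((D.G.map σ).hasDerivAt β).const_mul (σ lam)).mul_const
            ((D.M.map σ).eval α0)).const_sub ((D.N.map σ).eval α0)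
      rw [h3, h4.deriv, neg_eq_zero] at h2
      exact mul_ne_zero (mul_ne_zero hl0 hb1) (H.M_ne_zero σ hα0) h2
    · exact Or.inl (key A B hA hB hAB h0)

theorem exists_domain (σ : K →+* ℂ) (H : D.Ok) :
    ∃ C : ℝ, ∀ lam : K, C ≤ ‖σ lam‖ → IsDomain (D.CRing lam) := by
  obtain ⟨C, hC⟩ := exists_irreducible σ H
  exact ⟨C, fun lam hlam => AdjoinRoot.isDomain_of_prime (hC lam hlam).prime⟩

end Pool.Agent.U759.TP
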