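import Pool.Agent.U759.TP.Tor
import Pool.Agent.U759.TP.Dom
set_option autoImplicit false

/-!
The regulators of the symbols `{f_j(z), g_i(x)^(e_0) / g_0(x)^(e_i)}` on the curve
`N(z) = λ G(x) ∏_j f_j(z)^(m_j)` are linearly independent for all large `λ`.
-/

namespace Pool.Agent.U759.TP

open Polynomial Filter Topology Set

open scoped Real

open Pool.Agent.TH826.MK (Torus symb pairing wd)

open Pool.Agent.TH826.UH

/-- A small radius. -/
theorem exists_eps {P : ℂ[X]} (hP : P ≠ 0) (β : ℂ) :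
    ∃ ε : ℝ, 0 < ε ∧ ∀ a, P.eval a = 0 → a ≠ β → ε < ‖a - β‖ := by
  have hfin : ({a | P.eval a = 0 ∧ a ≠ β} : Set ℂ).Finite := by
    refine (P.roots.toFinset.finite_toSet).subset fun a ha => ?_
    simp only [Finset.mem_coe, Multiset.mem_toFinset]
    exact (mem_roots hP).2 ha.1
  have h1 : ({a | P.eval a = 0 ∧ a ≠ β} : Set ℂ)ᶜ ∈ 𝓝 β :=
    hfin.isClosed.isOpen_compl.mem_nhds fun h => h.2 rfl
  obtain ⟨ε, hε, h2⟩ := Metric.mem_nhds_iff.1 h1
  refine ⟨ε / 2, by linarith, fun a ha hab => ?_⟩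
  by_contra hcon
  have h3 : a ∈ Metric.ball β ε := by
    rw [Metric.mem_ball, dist_eq_norm]
    linarith [not_lt.1 hcon]
  exact h2 h3 ⟨ha, hab⟩

/-- The data of a branch of `G⁻¹` at a simple zero `β` of `G`, which is a zero of `p_i`. -/
theorem exists_branch' {n : ℕ} (G : ℂ[X]) (p : Fin n → ℂ[X]) (i : Fin n) {β : ℂ}
    (h0 : (p i).eval β = 0) (hdvd : p i ∣ G) (h1 : (derivative G).eval β ≠ 0)
    (hne : ∀ m, m ≠ i → (p m).eval β ≠ 0) :
    ∃ (δ : ℝ) (ψ : ℂ → ℂ) (Φ : Fin n → ℂ → ℂ), 0 < δ ∧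
      ∀ w, ‖w‖ < δ → ContDiffAt ℂ 2 ψ w ∧ G.eval (ψ w) = w ∧
        ∀ m, ContDiffAt ℂ 2 (Φ m) w ∧ Φ m w ≠ 0 ∧
          (p m).eval (ψ w) = (if m = i then w else 1) * Φ m w := by
  classical
  obtain ⟨h, hh⟩ := hdvd
  have hG0 : G.eval β = 0 := by rw [hh, eval_mul, h0, zero_mul]
  have hhβ : h.eval β ≠ 0 := by
    intro h2
    rw [hh, derivative_mul, eval_add, eval_mul, eval_mul, h0, h2, mul_zero, zero_mul,
      add_zero] at h1
    exact h1 rfl
  have hV : {y : ℂ | h.eval y ≠ 0 ∧ ∀ m, m ≠ i → (p m).eval y ≠ 0} ∈ 𝓝 β := by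
    refine Filter.inter_mem ?_ ?_
    · exact (h.continuous.continuousAt).eventually_ne hhβ
    · have h2 : ∀ m, ∀ᶠ y in 𝓝 β, m ≠ i → (p m).eval y ≠ 0 := by
        intro m
        by_cases hm : m = i
        · exact Filter.Eventually.of_forall fun y h => absurd hm h
        · exact (((p m).continuous.continuousAt).eventually_ne (hne m hm)).mono fun y hy _ => hy
      exact Filter.eventually_all.2 h2
  obtain ⟨δ, ψ, hδ, hψ0, hψ⟩ := exists_branch G hG0 h1 hV
  refine ⟨δ, ψ, fun m => if m = i then fun w => (h.eval (ψ w))⁻¹ else fun w => (p m).eval (ψ w),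
    hδ, fun w hw => ⟨(hψ w hw).1, (hψ w hw).2.1, fun m => ?_⟩⟩
  by_cases hm : m = i
  · subst hm
    simp only [if_true]
    have h2 := (hψ w hw).2.2.1
    refine ⟨(((contDiff_eval h).contDiffAt).comp w (hψ w hw).1).inv h2, inv_ne_zero h2, ?_⟩
    have h3 := (hψ w hw).2.1
    rw [hh, eval_mul] at h3
    rw [← h3, mul_assoc, h3, mul_inv_cancel₀ h2, mul_one]
  · simp only [if_neg hm, one_mul]
    exact ⟨((contDiff_eval (p m)).contDiffAt).comp w (hψ w hw).1, (hψ w hw).2.2.2 m hm, trivial⟩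

theorem contDiff_branch {ψ : ℂ → ℂ} {δ : ℝ} (hψ : ∀ w, ‖w‖ < δ → ContDiffAt ℂ 2 ψ w) {U : ℝ → ℂ}
    (hU : ContDiff ℝ 2 U) {w : ℂ} (hw : ∀ t, ‖w * U t‖ < δ) :
    ContDiff ℝ 2 fun t => ψ (w * U t) := by
  rw [contDiff_iff_contDiffAt]
  intro t
  exact ((hψ _ (hw t)).restrict_scalars ℝ).comp t (contDiff_const.mul hU).contDiffAt

/-- The asymptotics of the regulator integrals of one function on the loops of the branches. -/
theorem pr_asymp {n : ℕ} {p : Fin n → ℂ[X]} {i : Fin n} {δ : ℝ} {ψ : ℂ → ℂ} {Φ : Fin n → ℂ → ℂ}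
    (hψ : ∀ w, ‖w‖ < δ → ∀ m, ContDiffAt ℂ 2 (Φ m) w ∧ Φ m w ≠ 0 ∧
          (p m).eval (ψ w) = (if m = i then w else 1) * Φ m w)
    (hδ : 0 < δ)
    {F U : ℝ → ℂ} (hF : NZ F) (hU : NZ U) {T : ℝ} (hT : 1 ≤ T) (hUT : ∀ t, ‖U t‖ ≤ T) (m : Fin n) :
    ∃ B : ℝ, 0 ≤ B ∧ ∀ w : ℂ, ‖w‖ * T ≤ δ / 2 → w ≠ 0 →
      (NZ fun t => (p m).eval (ψ (w * U t))) ∧
      |pr F (fun t => (p m).eval (ψ (w * U t))) -
        (if m = i then -Real.log ‖w‖ * wn F else 0)| ≤ B := by
  obtain ⟨B, hB0, hB⟩ := exists_bound (Φ := Φ m) (δ := δ) (fun w hw =>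
      ⟨(hψ w hw m).1, (hψ w hw m).2.1⟩) hF hU.smooth hT hUT
  refine ⟨|pr F U| + B, by positivity, fun w hw hw0 => ?_⟩
  have hlt : ∀ t, ‖w * U t‖ < δ := by
    intro t
    rw [norm_mul]
    have := mul_le_mul_of_nonneg_left (hUT t) (norm_nonneg w)
    linarith
  have nΦ : NZ fun t => Φ m (w * U t) :=
    ⟨contDiff_branch (fun w hw => (hψ w hw m).1) hU.smooth hlt, fun t => (hψ _ (hlt t) m).2.1⟩
  by_cases hm : m = i
  · have nw : NZ fun _ : ℝ => w := ⟨contDiff_const, fun _ => hw0⟩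
    have e : (fun t => (p m).eval (ψ (w * U t))) = fun t => (w * U t) * Φ m (w * U t) := by
      funext t
      rw [(hψ _ (hlt t) m).2.2, if_pos hm]
    rw [e, if_pos hm]
    refine ⟨(nw.mul hU).mul nΦ, ?_⟩
    rw [pr_mul hF (nw.mul hU) nΦ, pr_mul hF nw hU, pr_const_eq]
    have h2 := hB w hw hw0
    have h3 : -(Real.log ‖w‖ * wn F) + pr F U + pr F (fun t => Φ m (w * U t)) -
        -Real.log ‖w‖ * wn F = pr F U + pr F (fun t => Φ m (w * U t)) := by ring
    rw [h3]
    exact (abs_add_le _ _).trans (by linarith)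
  · have e : (fun t => (p m).eval (ψ (w * U t))) = fun t => Φ m (w * U t) := by
      funext t
      rw [(hψ _ (hlt t) m).2.2, if_neg hm, one_mul]
    rw [e, if_neg hm, sub_zero]
    exact ⟨nΦ, (hB w hw hw0).trans (by linarith [abs_nonneg (pr F U)])⟩

variable {K : Type*} [Field K] {k r : ℕ} {D : Dat K k r}

theorem exists_loops (σ : K →+* ℂ) (H : D.Ok) (hcop : ∀ i j, i ≠ j → IsCoprime (D.f i) (D.f j))
    (hdeg : ∀ j, 0 < (D.f j).natDegree) (hcopg : ∀ i j, i ≠ j → IsCoprime (D.g i) (D.g j)) :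
    ∃ C : ℝ, ∀ lam : K, C ≤ ‖σ lam‖ → ∃ Γ : Fin k × Fin r → Torus (D.Open lam) 1,
      (∀ t θ y, (Γ t).e θ (D.cst lam y) = σ y) ∧
      (Matrix.of fun t s : Fin k × Fin r =>
        (Γ t).reg (symb (D.ent lam s.1 s.2.succ 0))).det ≠ 0 := by
  classical
  -- the polynomials over `ℂ`
  have hev : ∀ (p : K[X]) (z : ℂ), p.eval₂ σ z = (p.map σ).eval z := fun p z =>
    (eval_map σ z).symm
  have hNm : (D.N.map σ).Monic := H.monicN.map σ
  have hfm : ∀ j, ((D.f j).map σ).Monic := fun j => (H.monicf j).map σ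
  have hMm : (D.M.map σ).Monic := H.monicM.map σ
  have hMe : ∀ z, (D.M.map σ).eval z = ∏ j, ((D.f j).map σ).eval z ^ D.m j := by
    intro z
    unfold Dat.M
    rw [Polynomial.map_prod, Polynomial.eval_prod]
    exact Finset.prod_congr rfl fun j _ => by rw [Polynomial.map_pow, Polynomial.eval_pow]
  -- the loops in the `z`-plane
  have hroot : ∀ l, ∃ β, ((D.f l).map σ).eval β = 0 := by
    intro l
    refine IsAlgClosed.exists_root _ ?_
    rw [degree_map, degree_eq_natDegree (H.monicf l).ne_zero]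
    exact_mod_cast (hdeg l).ne'
  choose β hβ using hroot
  set P : ℂ[X] := D.N.map σ * ∏ j, (D.f j).map σ with hP
  have hP0 : P ≠ 0 := mul_ne_zero hNm.ne_zero
    (Finset.prod_ne_zero_iff.2 fun j _ => (hfm j).ne_zero)
  choose ε hε hεP using fun l => exists_eps hP0 (β l)
  have hPN : ∀ a, (D.N.map σ).eval a = 0 → P.eval a = 0 := fun a ha => by
    rw [hP, eval_mul, ha, zero_mul]
  have hPf : ∀ j a, ((D.f j).map σ).eval a = 0 → P.eval a = 0 := fun j a ha => by
    rw [hP, eval_mul, eval_prod, Finset.prod_eq_zero (Finset.mem_univ j) ha, mul_zero]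
  have hPM : ∀ a, (D.M.map σ).eval a = 0 → P.eval a = 0 := fun a ha => by
    rw [hMe, Finset.prod_eq_zero_iff] at ha
    obtain ⟨j, -, hj⟩ := ha
    exact hPf j a (pow_eq_zero_iff (H.pos j) |>.1 hj)
  have hoff : ∀ l a, P.eval a = 0 → ‖a - β l‖ ≠ ε l := by
    intro l a ha h
    by_cases hab : a = β l
    · rw [hab, sub_self, norm_zero] at h
      exact (hε l).ne h
    · exact (hεP l a ha hab).ne' h
  have nF : ∀ l j, NZ fun t => ((D.f j).map σ).eval (cir (β l) (ε l) t) := fun l j =>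
    (nz_wn_poly (hε l) (hfm j) fun a ha => hoff l a (hPf j a ha)).1
  have nN : ∀ l, NZ fun t => (D.N.map σ).eval (cir (β l) (ε l) t) := fun l =>
    (nz_wn_poly (hε l) hNm fun a ha => hoff l a (hPN a ha)).1
  have nM : ∀ l, NZ fun t => (D.M.map σ).eval (cir (β l) (ε l) t) := fun l =>
    (nz_wn_poly (hε l) hMm fun a ha => hoff l a (hPM a ha)).1
  set U : Fin k → ℝ → ℂ := fun l t => (D.N.map σ).eval (cir (β l) (ε l) t) /
    (D.M.map σ).eval (cir (β l) (ε l) t) with hUdef
  have nU : ∀ l, NZ (U l) := fun l => (nN l).div (nM l)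
  have hT' : ∀ l, ∃ T : ℝ, ∀ t, ‖U l t‖ ≤ T := by
    intro l
    have hc : ContinuousOn (fun z => (D.N.map σ).eval z / (D.M.map σ).eval z)
        (Metric.sphere (β l) (ε l)) := by
      refine (D.N.map σ).continuous.continuousOn.div (D.M.map σ).continuous.continuousOn
        fun z hz h => ?_
      refine hoff l z (hPM z h) ?_
      rw [← dist_eq_norm]
      exact hz
    obtain ⟨T, hT⟩ := (isCompact_sphere _ _).exists_bound_of_continuousOn hc
    refine ⟨T, fun t => hT _ ?_⟩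
    rw [Metric.mem_sphere, dist_eq_norm, norm_cir_sub (hε l).le]
  choose T' hT' using hT'
  set T : ℝ := 1 + ∑ l, |T' l| with hTdef
  have hT1 : 1 ≤ T := by
    have : 0 ≤ ∑ l, |T' l| := Finset.sum_nonneg fun _ _ => abs_nonneg _
    linarith
  have hUT : ∀ l t, ‖U l t‖ ≤ T := by
    intro l t
    have h1 : |T' l| ≤ ∑ l, |T' l| :=
      Finset.single_le_sum (f := fun l => |T' l|) (fun _ _ => abs_nonneg _) (Finset.mem_univ l)
    have h2 := hT' l t
    have h3 := le_abs_self (T' l)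
    linarith
  -- the branches
  have hgroot : ∀ i, ∃ β, ((D.g i).map σ).eval β = 0 := by
    intro i
    refine IsAlgClosed.exists_root _ ?_
    rw [degree_map, degree_eq_natDegree (H.monicg i).ne_zero]
    exact_mod_cast (H.degg i).ne'
  choose b hb using hgroot
  have hgne : ∀ i m, m ≠ i → ((D.g m).map σ).eval (b i) ≠ 0 := by
    intro i m hmi h
    obtain ⟨u, v, huv⟩ := hcopg m i hmi
    have h1 := congrArg (fun p => (p.map σ).eval (b i)) huv
    simp only [Polynomial.map_add, Polynomial.map_mul, Polynomial.map_one, eval_add, eval_mul,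
      eval_one, h, hb i, mul_zero, add_zero] at h1
    exact zero_ne_one h1
  choose δ' ψ Φ hδ' hψ using fun i => exists_branch' (D.G.map σ) (fun m => (D.g m).map σ) i
    (hb i) (Polynomial.map_dvd σ (H.dvd i)) (H.G_simple σ (hb i)) (hgne i)
  have hne : (Finset.univ : Finset (Fin (r + 1))).Nonempty := ⟨0, Finset.mem_univ _⟩
  set δ : ℝ := Finset.univ.inf' hne δ' with hδdef
  have hδ : 0 < δ := (Finset.lt_inf'_iff hne).2 fun i _ => hδ' i
  have hδi : ∀ i, δ ≤ δ' i := fun i => Finset.inf'_le _ (Finset.mem_univ i)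
  -- the constants
  have hB' : ∀ (l j : Fin k) (i m : Fin (r + 1)), ∃ B : ℝ, 0 ≤ B ∧ ∀ w : ℂ, ‖w‖ * T ≤ δ / 2 →
      w ≠ 0 → (NZ fun t => ((D.g m).map σ).eval (ψ i (w * U l t))) ∧
        |pr (fun t => ((D.f j).map σ).eval (cir (β l) (ε l) t))
        (fun t => ((D.g m).map σ).eval (ψ i (w * U l t))) - (if m = i then -Real.log ‖w‖ *
          wn (fun t => ((D.f j).map σ).eval (cir (β l) (ε l) t)) else 0)| ≤ B := by
    intro l j i m
    exact pr_asymp (p := fun m => (D.g m).map σ)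
      (fun w hw => (hψ i w (hw.trans_le (hδi i))).2.2) hδ (nF l j) (nU l) hT1 (hUT l) m
  choose B' hB'0 hB' using hB'
  set B : ℝ := ∑ l, ∑ j, ∑ i, ∑ m, B' l j i m with hBdef
  have hBle : ∀ l j i m, B' l j i m ≤ B := by
    intro l j i m
    calc B' l j i m ≤ ∑ m, B' l j i m :=
          Finset.single_le_sum (fun m _ => hB'0 l j i m) (Finset.mem_univ m)
      _ ≤ ∑ i, ∑ m, B' l j i m := Finset.single_le_sum (f := fun i => ∑ m, B' l j i m)
          (fun i _ => Finset.sum_nonneg fun m _ => hB'0 l j i m) (Finset.mem_univ i)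
      _ ≤ ∑ j, ∑ i, ∑ m, B' l j i m := Finset.single_le_sum
          (f := fun j => ∑ i, ∑ m, B' l j i m) (fun j _ => Finset.sum_nonneg fun i _ =>
            Finset.sum_nonneg fun m _ => hB'0 l j i m) (Finset.mem_univ j)
      _ ≤ B := Finset.single_le_sum (f := fun l => ∑ j, ∑ i, ∑ m, B' l j i m)
          (fun l _ => Finset.sum_nonneg fun j _ => Finset.sum_nonneg fun i _ =>
            Finset.sum_nonneg fun m _ => hB'0 l j i m) (Finset.mem_univ l)
  have hB0 : 0 ≤ B := Finset.sum_nonneg fun l _ => Finset.sum_nonneg fun j _ =>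
    Finset.sum_nonneg fun i _ => Finset.sum_nonneg fun m _ => hB'0 l j i m
  -- the degrees
  set S : ℝ := ∑ i, ((D.g i).natDegree : ℝ) with hSdef
  have hSle : ∀ i, ((D.g i).natDegree : ℝ) ≤ S := fun i =>
    Finset.single_le_sum (f := fun i => ((D.g i).natDegree : ℝ)) (fun _ _ => Nat.cast_nonneg _)
      (Finset.mem_univ i)
  have hS0 : 0 ≤ S := Finset.sum_nonneg fun _ _ => Nat.cast_nonneg _
  -- the winding numbers
  have hwn0 : ∀ l j, j ≠ l → wn (fun t => ((D.f j).map σ).eval (cir (β l) (ε l) t)) = 0 := by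
    intro l j hjl
    refine wn_poly_zero (hε l) (hfm j) fun a ha => hεP l a (hPf j a ha) ?_
    rintro rfl
    obtain ⟨u, v, huv⟩ := hcop j l hjl
    have h1 := congrArg (fun p => (p.map σ).eval (β l)) huv
    simp only [Polynomial.map_add, Polynomial.map_mul, Polynomial.map_one, eval_add, eval_mul,
      eval_one, ha, hβ l, mul_zero, add_zero] at h1
    exact zero_ne_one h1
  have hwn1 : ∀ l, 2 * π ≤ wn (fun t => ((D.f l).map σ).eval (cir (β l) (ε l) t)) := fun l =>
    wn_poly_pos (hε l) (hfm l) (fun a ha => hoff l a (hPf l a ha)) (hβ l)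
  set R : ℝ := 1 + ((k * r : ℕ) + 1) * (S * B) with hR
  refine ⟨max (max 1 (2 * T / δ)) (Real.exp R), fun lam hlam => ?_⟩
  have hl1 : 1 ≤ ‖σ lam‖ := ((le_max_left _ _).trans (le_max_left _ _)).trans hlam
  have hl2 : 2 * T / δ ≤ ‖σ lam‖ := ((le_max_right _ _).trans (le_max_left _ _)).trans hlam
  have hl3 : Real.exp R ≤ ‖σ lam‖ := (le_max_right _ _).trans hlam
  have hlpos : 0 < ‖σ lam‖ := by linarith
  have hl0 : σ lam ≠ 0 := norm_pos_iff.1 hlpos
  set w : ℂ := (σ lam)⁻¹ with hw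
  have hw0 : w ≠ 0 := inv_ne_zero hl0
  have hwT : ‖w‖ * T ≤ δ / 2 := by
    rw [hw, norm_inv, inv_mul_le_iff₀ hlpos]
    rw [div_le_iff₀ hδ] at hl2
    linarith
  have hlog : R ≤ -Real.log ‖w‖ := by
    rw [hw, norm_inv, Real.log_inv, neg_neg]
    exact (Real.le_log_iff_exp_le hlpos).2 hl3
  have hlt : ∀ l t, ‖w * U l t‖ < δ := by
    intro l t
    rw [norm_mul]
    have := mul_le_mul_of_nonneg_left (hUT l t) (norm_nonneg w)
    linarith
  have hcX : ∀ (l : Fin k) (i : Fin (r + 1)), ContDiff ℝ 2 fun t => ψ i (w * U l t) := fun l i =>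
    contDiff_branch (fun w hw => (hψ i w (hw.trans_le (hδi i))).1) (nU l).smooth (hlt l)
  have nG : ∀ (l : Fin k) (i m : Fin (r + 1)),
      NZ fun t => ((D.g m).map σ).eval (ψ i (w * U l t)) := fun l i m =>
    (hB' l l i m w hwT hw0).1
  have hPt : ∀ (l : Fin k) (i : Fin (r + 1)) (t : ℝ),
      PtS σ D lam (ψ i (w * U l t)) (cir (β l) (ε l) t) := by
    intro l i t
    have h1 := hψ i (w * U l t) ((hlt l t).trans_le (hδi i))
    have h2 : (D.M.map σ).eval (cir (β l) (ε l) t) ≠ 0 := (nM l).ne_zero t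
    refine ⟨?_, fun m => ?_, fun j => ?_⟩
    · rw [hev, hev, hev, h1.2.1, hw]
      simp only [hUdef]
      field_simp
    · rw [hev]
      exact (nG l i m).ne_zero t
    · rw [hev]
      exact (nF l j).ne_zero t
  have hXper : ∀ (l : Fin k) (i : Fin (r + 1)) (t : ℝ),
      ψ i (w * U l (t + 1)) = ψ i (w * U l t) := by
    intro l i t
    simp only [hUdef, cir_add_one]
  refine ⟨fun t => mkS (hcX t.1 t.2.succ) contDiff_cir (hXper t.1 t.2.succ) cir_add_one
    (hPt t.1 t.2.succ), fun t θ y => ?_, ?_⟩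
  · rw [mkS_e, PtS.evA_cst]
  · -- the matrix
    set I : Fin k → Fin k → Fin (r + 1) → Fin (r + 1) → ℝ := fun l j i m =>
      pr (fun t => ((D.f j).map σ).eval (cir (β l) (ε l) t))
        (fun t => ((D.g m).map σ).eval (ψ i (w * U l t))) with hI
    have hIB : ∀ l j i m, |I l j i m - (if m = i then -Real.log ‖w‖ *
        wn (fun t => ((D.f j).map σ).eval (cir (β l) (ε l) t)) else 0)| ≤ B := fun l j i m =>
      (hB' l j i m w hwT hw0).2.trans (hBle l j i m)
    set A : Matrix (Fin k × Fin r) (Fin k × Fin r) ℝ := Matrix.of fun t s : Fin k × Fin r =>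
      ((D.g 0).natDegree : ℝ) * I t.1 s.1 t.2.succ s.2.succ -
        ((D.g s.2.succ).natDegree : ℝ) * I t.1 s.1 t.2.succ 0 with hA
    have e : (Matrix.of fun t s : Fin k × Fin r =>
        (mkS (hcX t.1 t.2.succ) contDiff_cir (hXper t.1 t.2.succ) cir_add_one
          (hPt t.1 t.2.succ)).reg (symb (D.ent lam s.1 s.2.succ 0))) = A := by
      ext t s
      rw [hA, Matrix.of_apply, Matrix.of_apply, mkS_reg _ _ _ _ _ _ (by
        have := nF t.1 s.1
        simpa only [hev] using this) (fun i => by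
        have := nG t.1 t.2.succ i
        simpa only [hev] using this)]
      simp only [hI, hev]
    rw [e]
    refine det_ne_zero_of_sum_row_lt_diag fun t => ?_
    obtain ⟨l, i⟩ := t
    have hoffd : ∀ s ∈ Finset.univ.erase (l, i), ‖A (l, i) s‖ ≤ 2 * (S * B) := by
      rintro ⟨j, m⟩ hs
      have hne := Finset.ne_of_mem_erase hs
      rw [hA, Matrix.of_apply, Real.norm_eq_abs]
      simp only
      have h1 := hIB l j i.succ m.succ
      have h2 := hIB l j i.succ 0
      rw [if_neg (Fin.succ_ne_zero i).symm, sub_zero] at h2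
      have h3 : (if m.succ = i.succ then -Real.log ‖w‖ *
          wn (fun t => ((D.f j).map σ).eval (cir (β l) (ε l) t)) else 0) = 0 := by
        by_cases hmi : m.succ = i.succ
        · have hmi' := Fin.succ_injective _ hmi
          have hjl : j ≠ l := by
            rintro rfl
            exact hne (by rw [hmi'])
          rw [if_pos hmi, hwn0 l j hjl, mul_zero]
        · rw [if_neg hmi]
      rw [h3, sub_zero] at h1
      calc |((D.g 0).natDegree : ℝ) * I l j i.succ m.succ -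
            ((D.g m.succ).natDegree : ℝ) * I l j i.succ 0|
          ≤ |((D.g 0).natDegree : ℝ) * I l j i.succ m.succ| +
            |((D.g m.succ).natDegree : ℝ) * I l j i.succ 0| := abs_sub _ _
        _ = ((D.g 0).natDegree : ℝ) * |I l j i.succ m.succ| +
            ((D.g m.succ).natDegree : ℝ) * |I l j i.succ 0| := by
          rw [abs_mul, abs_mul, Nat.abs_cast, Nat.abs_cast]
        _ ≤ S * B + S * B := add_le_add
          (mul_le_mul (hSle _) h1 (abs_nonneg _) hS0) (mul_le_mul (hSle _) h2 (abs_nonneg _) hS0)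
        _ = 2 * (S * B) := by ring
    have hSB : 0 ≤ S * B := mul_nonneg hS0 hB0
    have hsum : ∑ s ∈ Finset.univ.erase (l, i), ‖A (l, i) s‖ ≤
        (k * r : ℕ) * (2 * (S * B)) := by
      refine (Finset.sum_le_card_nsmul _ _ _ hoffd).trans ?_
      rw [nsmul_eq_mul]
      refine mul_le_mul_of_nonneg_right ?_ (by linarith)
      have h1 : (Finset.univ.erase (l, i)).card ≤ k * r := by
        refine (Finset.card_le_univ _).trans ?_
        simp
      exact_mod_cast h1
    refine hsum.trans_lt ?_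
    have h1 := hIB l l i.succ i.succ
    have h2 := hIB l l i.succ 0
    rw [if_pos rfl] at h1
    rw [if_neg (Fin.succ_ne_zero i).symm, sub_zero] at h2
    rw [hA, Matrix.of_apply, Real.norm_eq_abs]
    simp only
    refine lt_of_lt_of_le ?_ (le_abs_self _)
    have h3 := (abs_le.1 h1).1
    have h4 := (abs_le.1 h2).2
    have h5 := hwn1 l
    have h6 : 0 < R := by
      rw [hR]
      positivity
    have h7 : R * 2 < -Real.log ‖w‖ *
        wn (fun t => ((D.f l).map σ).eval (cir (β l) (ε l) t)) := by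
      have hpi := Real.pi_gt_three
      have h8 : R * 2 < R * (2 * π) := by nlinarith
      exact h8.trans_le (mul_le_mul hlog h5 (by positivity) (by linarith))
    have hd0 : (1 : ℝ) ≤ ((D.g 0).natDegree : ℝ) := by exact_mod_cast H.degg 0
    have h8 : R * 2 = 2 + 2 * ((k * r : ℕ) * (S * B)) + 2 * (S * B) := by
      rw [hR]
      ring
    have h9 : ((k * r : ℕ) : ℝ) * (2 * (S * B)) = 2 * ((k * r : ℕ) * (S * B)) := by ring
    have h10 : ((D.g i.succ).natDegree : ℝ) * I l l i.succ 0 ≤ S * B :=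
      (le_abs_self _).trans (by
        rw [abs_mul, Nat.abs_cast]
        exact mul_le_mul (hSle _) h2 (abs_nonneg _) hS0)
    have h11 : ((D.g 0).natDegree : ℝ) * (R * 2) - S * B ≤
        ((D.g 0).natDegree : ℝ) * I l l i.succ i.succ := by
      have h12 : R * 2 - B ≤ I l l i.succ i.succ := by linarith
      have h13 := mul_le_mul_of_nonneg_left h12 (by linarith : (0 : ℝ) ≤ ((D.g 0).natDegree : ℝ))
      have h14 : ((D.g 0).natDegree : ℝ) * B ≤ S * B := mul_le_mul_of_nonneg_right (hSle 0) hB0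
      linarith
    have h15 : R * 2 ≤ ((D.g 0).natDegree : ℝ) * (R * 2) := by nlinarith
    rw [h9]
    linarith

end Pool.Agent.U759.TP
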