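import Pool.Agent.TH826.MK.Milnor
import Pool.Agent.TH826.MK.Variety
set_option autoImplicit false

/-!
Curves `N(z) = λ G(x) ∏_j f_j(z)^(m_j)` for which every `f_j` is torsion modulo the radical of `N`:
the coordinate ring, its open part, and the symbols `{f_j(z), g_i(x)^(e_l) / g_l(x)^(e_i)}` of factors
`g_i` of `G` of the degrees `e_i`.
-/

namespace Pool.Agent.U759.TP

open scoped WithZero

open Polynomial

open Pool.Agent.TH826.MK (KQ symb unitPart Unramified)

/-- The polynomials `N, f_1, ..., f_k` in `z` with the exponents `m_j`, the polynomial `G` in `x`, and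
the factors `g_0, ..., g_r` of `G`. -/
structure Dat (K : Type*) [Field K] (k r : ℕ) where
  /-- the polynomial `N(z)` -/
  N : K[X]
  /-- the polynomials `f_j(z)` -/
  f : Fin k → K[X]
  /-- the exponents -/
  m : Fin k → ℕ
  /-- the polynomial `G(x)` -/
  G : K[X]
  /-- the factors of `G` -/
  g : Fin (r + 1) → K[X]

section Ring

variable {K : Type*} [Field K] {k r : ℕ} (D : Dat K k r) (lam : K)

/-- The polynomial `M = ∏_j f_j ^ m_j`. -/
noncomputable def Dat.M : K[X] := ∏ j, D.f j ^ D.m j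

/-- The polynomial `N(z) - λ G(x) M(z)` in `K[x][z]`. -/
noncomputable def Dat.eqn : K[X][X] := D.N.map C - C (C lam * D.G) * D.M.map C

/-- The coordinate ring `K[x, z] / (N(z) - λ G(x) M(z))` of the affine curve. -/
def Dat.CRing : Type _ := AdjoinRoot (D.eqn lam)

noncomputable instance : CommRing (D.CRing lam) := AdjoinRoot.instCommRing (D.eqn lam)

/-- The polynomials in `x` and `z` as functions on the curve. -/
noncomputable def Dat.mk' : K[X][X] →+* D.CRing lam := AdjoinRoot.mk (D.eqn lam)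

/-- The polynomials in `x` as functions on the curve. -/
noncomputable def Dat.xpol : K[X] →+* D.CRing lam := (D.mk' lam).comp C

/-- The polynomials in `z` as functions on the curve. -/
noncomputable def Dat.zpol : K[X] →+* D.CRing lam := (D.mk' lam).comp (Polynomial.mapRingHom C)

theorem Dat.mk'_surjective : Function.Surjective (D.mk' lam) := AdjoinRoot.mk_surjective

theorem Dat.mk'_eqn : D.mk' lam (D.eqn lam) = 0 := AdjoinRoot.mk_self

theorem Dat.zpol_apply (p : K[X]) : D.zpol lam p = D.mk' lam (p.map C) := rfl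

theorem Dat.xpol_apply (p : K[X]) : D.xpol lam p = D.mk' lam (C p) := rfl

theorem Dat.rel : D.zpol lam D.N = D.xpol lam (C lam * D.G) * D.zpol lam D.M := by
  have h : D.mk' lam (D.N.map C - C (C lam * D.G) * D.M.map C) = 0 := D.mk'_eqn lam
  rw [map_sub (D.mk' lam), map_mul (D.mk' lam), sub_eq_zero] at h
  rw [D.zpol_apply, D.zpol_apply, D.xpol_apply]
  exact h

/-- The function `Δ = ∏_i g_i(x) ∏_j f_j(z)`. -/
noncomputable def Dat.Del : D.CRing lam :=
  D.xpol lam (∏ i, D.g i) * D.zpol lam (∏ j, D.f j)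

/-- The coordinate ring of the open part `Δ ≠ 0` of the curve. -/
abbrev Dat.Open : Type _ := Localization.Away (D.Del lam)

/-- The restriction of functions to the open part. -/
noncomputable def Dat.toO : D.CRing lam →+* D.Open lam := algebraMap _ _

/-- The constants. -/
noncomputable def Dat.cst : K →+* D.Open lam := (D.toO lam).comp ((D.xpol lam).comp C)

theorem Dat.isUnit_Del : IsUnit (D.toO lam (D.Del lam)) :=
  IsLocalization.Away.algebraMap_isUnit (D.Del lam)

theorem Dat.isUnit_ug (i : Fin (r + 1)) : IsUnit (D.toO lam (D.xpol lam (D.g i))) := by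
  refine isUnit_of_dvd_unit (_root_.map_dvd _ ?_) (D.isUnit_Del lam)
  exact Dvd.dvd.mul_right (_root_.map_dvd _ (Finset.dvd_prod_of_mem D.g (Finset.mem_univ i))) _

theorem Dat.isUnit_uf (j : Fin k) : IsUnit (D.toO lam (D.zpol lam (D.f j))) := by
  refine isUnit_of_dvd_unit (_root_.map_dvd _ ?_) (D.isUnit_Del lam)
  exact Dvd.dvd.mul_left (_root_.map_dvd _ (Finset.dvd_prod_of_mem D.f (Finset.mem_univ j))) _

/-- The unit `g_i(x)`. -/
noncomputable def Dat.ug (i : Fin (r + 1)) : (D.Open lam)ˣ := (D.isUnit_ug lam i).unit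

/-- The unit `f_j(z)`. -/
noncomputable def Dat.uf (j : Fin k) : (D.Open lam)ˣ := (D.isUnit_uf lam j).unit

theorem Dat.coe_ug (i : Fin (r + 1)) :
    (D.ug lam i : D.Open lam) = D.toO lam (D.xpol lam (D.g i)) := rfl

theorem Dat.coe_uf (j : Fin k) : (D.uf lam j : D.Open lam) = D.toO lam (D.zpol lam (D.f j)) := rfl

/-- The entries `f_j(z)` and `g_i(x) ^ (deg g_l) / g_l(x) ^ (deg g_i)` of the symbol. -/
noncomputable def Dat.ent (j : Fin k) (i l : Fin (r + 1)) : Fin 2 → (D.Open lam)ˣ :=
  ![D.uf lam j, D.ug lam i ^ (D.g l).natDegree / D.ug lam l ^ (D.g i).natDegree]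

/-- The hypotheses on the data: `N`, the `f_j` and the `g_i` are monic, all coefficients are algebraic
integers, `∑_j m_j deg f_j < deg N`, all `m_j` are positive, `N` divides a power of `f_j^n - 1` for
some `n ≥ 1` (for every `j`), the `g_i` are not constant and divide `G`, and their zeros are simple
zeros of `G`. -/
structure Dat.Ok : Prop where
  monicN : D.N.Monic
  monicf : ∀ j, (D.f j).Monic
  monicg : ∀ i, (D.g i).Monic
  intN : ∀ i, IsIntegral ℤ (D.N.coeff i)
  intf : ∀ j i, IsIntegral ℤ ((D.f j).coeff i)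
  intG : ∀ i, IsIntegral ℤ (D.G.coeff i)
  intg : ∀ j i, IsIntegral ℤ ((D.g j).coeff i)
  deg : ∑ j, D.m j * (D.f j).natDegree < D.N.natDegree
  pos : ∀ j, D.m j ≠ 0
  tors : ∀ j, ∃ n l : ℕ, n ≠ 0 ∧ D.N ∣ (D.f j ^ n - 1) ^ l
  degg : ∀ i, 0 < (D.g i).natDegree
  dvd : ∀ i, D.g i ∣ D.G
  simple : ∀ i, IsCoprime (D.g i) (derivative D.G)

end Ring

section Lift

variable {K : Type*} [Field K] {k r : ℕ} {D : Dat K k r} {lam : K} {S : Type*} [Field S]

/-- The homomorphism on the coordinate ring of the curve defined by a solution `(x, z)`. -/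
noncomputable def Dat.ev (c : K →+* S) (x z : S)
    (h : D.N.eval₂ c z = c lam * D.G.eval₂ c x * D.M.eval₂ c z) : D.CRing lam →+* S :=
  AdjoinRoot.lift (Polynomial.eval₂RingHom c x) z (by
    unfold Dat.eqn
    have h1 : ∀ p : K[X], (p.map C).eval₂ (Polynomial.eval₂RingHom c x) z = p.eval₂ c z := by
      intro p
      rw [Polynomial.eval₂_map]
      congr 1
      ext a
      simp
    rw [Polynomial.eval₂_sub, Polynomial.eval₂_mul, Polynomial.eval₂_C, h1, h1, h]
    simp)

variable (c : K →+* S) (x z : S) (h : D.N.eval₂ c z = c lam * D.G.eval₂ c x * D.M.eval₂ c z)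

theorem Dat.ev_mk (p : K[X][X]) :
    Dat.ev (D := D) c x z h (D.mk' lam p) = p.eval₂ (Polynomial.eval₂RingHom c x) z :=
  AdjoinRoot.lift_mk _ p

theorem Dat.ev_xpol (p : K[X]) : Dat.ev (D := D) c x z h (D.xpol lam p) = p.eval₂ c x := by
  unfold Dat.xpol
  rw [RingHom.comp_apply, Dat.ev_mk]
  simp

theorem eval_map_C (p : K[X]) :
    (p.map C).eval₂ (Polynomial.eval₂RingHom c x) z = p.eval₂ c z := by
  rw [Polynomial.eval₂_map]
  congr 1
  ext a
  simp

theorem Dat.ev_zpol (p : K[X]) : Dat.ev (D := D) c x z h (D.zpol lam p) = p.eval₂ c z := by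
  unfold Dat.zpol
  rw [RingHom.comp_apply, Dat.ev_mk, Polynomial.coe_mapRingHom, eval_map_C]

theorem Dat.ev_Del : Dat.ev (D := D) c x z h (D.Del lam) =
    (∏ i, (D.g i).eval₂ c x) * ∏ j, (D.f j).eval₂ c z := by
  unfold Dat.Del
  rw [map_mul, Dat.ev_xpol, Dat.ev_zpol, Polynomial.eval₂_finsetProd,
    Polynomial.eval₂_finsetProd]

end Lift

end Pool.Agent.U759.TP
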