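import Pool.Agent.U759.TP.Unram
import Pool.Agent.U759.TP.Loc
set_option autoImplicit false

/-!
Loops in the complex points of the open part of the curve `N(z) = λ G(x) M(z)`.
-/

namespace Pool.Agent.U759.TP

open Polynomial

open Pool.Agent.TH826.MK (Torus symb pairing)

open Pool.Agent.TH826.UH

variable {K : Type*} [Field K] {σ : K →+* ℂ} {k r : ℕ} {D : Dat K k r} {lam : K}

/-- the points of the open part of the curve -/
structure PtS (σ : K →+* ℂ) (D : Dat K k r) (lam : K) (x z : ℂ) : Prop where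
  eq : D.N.eval₂ σ z = σ lam * D.G.eval₂ σ x * D.M.eval₂ σ z
  ng : ∀ i, (D.g i).eval₂ σ x ≠ 0
  nf : ∀ j, (D.f j).eval₂ σ z ≠ 0

variable {x z : ℂ}

/-- evaluation of the regular functions on the curve -/
noncomputable def PtS.evB (h : PtS σ D lam x z) : D.CRing lam →+* ℂ := Dat.ev σ x z h.eq

theorem PtS.evB_Del (h : PtS σ D lam x z) : h.evB (D.Del lam) ≠ 0 := by
  unfold PtS.evB
  rw [Dat.ev_Del]
  exact mul_ne_zero (Finset.prod_ne_zero_iff.2 fun i _ => h.ng i)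
    (Finset.prod_ne_zero_iff.2 fun j _ => h.nf j)

/-- evaluation of the regular functions on the open part -/
noncomputable def PtS.evA (h : PtS σ D lam x z) : D.Open lam →+* ℂ :=
  IsLocalization.Away.lift (D.Del lam) (isUnit_iff_ne_zero.2 h.evB_Del)

theorem PtS.evA_toO (h : PtS σ D lam x z) (a : D.CRing lam) : h.evA (D.toO lam a) = h.evB a :=
  IsLocalization.Away.lift_eq _ _ a

theorem PtS.evA_congr {x' z' : ℂ} (h : PtS σ D lam x z) (h' : PtS σ D lam x' z') (e : x = x')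
    (e' : z = z') : h.evA = h'.evA := by
  subst e
  subst e'
  rfl

theorem PtS.evA_cst (h : PtS σ D lam x z) (y : K) : h.evA (D.cst lam y) = σ y := by
  show h.evA (D.toO lam (D.xpol lam (C y))) = _
  rw [h.evA_toO]
  unfold PtS.evB
  rw [Dat.ev_xpol, Polynomial.eval₂_C]

theorem PtS.evA_uf (h : PtS σ D lam x z) (j : Fin k) :
    h.evA (D.uf lam j : D.Open lam) = (D.f j).eval₂ σ z := by
  rw [D.coe_uf, h.evA_toO]
  unfold PtS.evB
  rw [Dat.ev_zpol]

theorem PtS.evA_ug (h : PtS σ D lam x z) (i : Fin (r + 1)) :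
    h.evA (D.ug lam i : D.Open lam) = (D.g i).eval₂ σ x := by
  rw [D.coe_ug, h.evA_toO]
  unfold PtS.evB
  rw [Dat.ev_xpol]

theorem contDiff_evA {d : ℕ} {X Z : (Fin d → ℝ) → ℂ} (hX : ContDiff ℝ 2 X)
    (hZ : ContDiff ℝ 2 Z) (hP : ∀ θ, PtS σ D lam (X θ) (Z θ)) (h : D.Open lam) :
    ContDiff ℝ 2 fun θ => (hP θ).evA h := by
  have hpol : ∀ p : K[X], ContDiff ℝ 2 fun θ => p.eval₂ σ (X θ) := by
    intro p
    have e : (fun θ => p.eval₂ σ (X θ)) = fun θ =>
        ∑ i ∈ Finset.range (p.natDegree + 1), σ (p.coeff i) * (X θ) ^ i := by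
      funext θ
      rw [Polynomial.eval₂_eq_sum_range]
    rw [e]
    exact ContDiff.sum fun i _ => contDiff_const.mul (hX.pow i)
  have hB : ∀ a : D.CRing lam, ContDiff ℝ 2 fun θ => (hP θ).evB a := by
    intro a
    obtain ⟨p, hp⟩ := D.mk'_surjective lam a
    have e : (fun θ => (hP θ).evB a) = fun θ =>
        ∑ i ∈ Finset.range (p.natDegree + 1), (p.coeff i).eval₂ σ (X θ) * (Z θ) ^ i := by
      funext θ
      unfold PtS.evB
      rw [← hp, Dat.ev_mk, Polynomial.eval₂_eq_sum_range]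
      rfl
    rw [e]
    exact ContDiff.sum fun i _ => (hpol _).mul (hZ.pow i)
  obtain ⟨n, a, ha⟩ := IsLocalization.Away.surj (D.Del lam) h
  have e : (fun θ => (hP θ).evA h) = fun θ =>
      (hP θ).evB a * ((hP θ).evB (D.Del lam))⁻¹ ^ n := by
    funext θ
    have h1 := congrArg (hP θ).evA ha
    rw [map_mul, map_pow] at h1
    have h2 : ∀ b : D.CRing lam, (hP θ).evA (algebraMap (D.CRing lam)
        (Localization.Away (D.Del lam)) b) = (hP θ).evB b := (hP θ).evA_toO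
    rw [h2, h2] at h1
    have h3 := (hP θ).evB_Del
    rw [← h1, mul_assoc, ← mul_pow, mul_inv_cancel₀ h3, one_pow, mul_one]
  rw [e]
  exact (hB _).mul (((hB _).inv fun θ => (hP θ).evB_Del).pow n)

/-- A loop in the open part of the curve. -/
noncomputable def mkS {X Z : ℝ → ℂ} (hX : ContDiff ℝ 2 X) (hZ : ContDiff ℝ 2 Z)
    (hX1 : ∀ t, X (t + 1) = X t) (hZ1 : ∀ t, Z (t + 1) = Z t)
    (hP : ∀ t, PtS σ D lam (X t) (Z t)) : Torus (D.Open lam) 1 where
  e θ := (hP (θ 0)).evA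
  smooth h := contDiff_evA (X := fun θ => X (θ 0)) (Z := fun θ => Z (θ 0))
    (hX.comp (contDiff_apply ℝ ℝ 0)) (hZ.comp (contDiff_apply ℝ ℝ 0)) (fun θ => hP (θ 0)) h
  periodic θ i := by
    have h0 : (θ + Pi.single i 1 : Fin 1 → ℝ) 0 = θ 0 + 1 := by
      rw [Pi.add_apply, Subsingleton.elim i 0, Pi.single_eq_same]
    refine PtS.evA_congr _ _ ?_ ?_
    · rw [h0, hX1]
    · rw [h0, hZ1]

theorem mkS_e {X Z : ℝ → ℂ} (hX : ContDiff ℝ 2 X) (hZ : ContDiff ℝ 2 Z)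
    (hX1 : ∀ t, X (t + 1) = X t) (hZ1 : ∀ t, Z (t + 1) = Z t)
    (hP : ∀ t, PtS σ D lam (X t) (Z t)) (θ : Fin 1 → ℝ) :
    (mkS hX hZ hX1 hZ1 hP).e θ = (hP (θ 0)).evA := rfl

theorem nz_pow {H : ℝ → ℂ} (hH : NZ H) (n : ℕ) : NZ fun t => H t ^ n :=
  ⟨hH.smooth.pow n, fun t => pow_ne_zero n (hH.ne_zero t)⟩

theorem pr_pow {F H : ℝ → ℂ} (hF : NZ F) (hH : NZ H) (n : ℕ) :
    pr F (fun t => H t ^ n) = n * pr F H := by
  induction n with
  | zero => simpa using pr_one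
  | succ n ih =>
    simp only [pow_succ]
    rw [pr_mul hF (nz_pow hH n) hH, ih]
    push_cast
    ring

/-- The regulator of the symbol `{f_j(z), g_i(x) ^ (deg g_l) / g_l(x) ^ (deg g_i)}` on a loop
`(X, Z)`. -/
theorem mkS_reg {X Z : ℝ → ℂ} (hX : ContDiff ℝ 2 X) (hZ : ContDiff ℝ 2 Z)
    (hX1 : ∀ t, X (t + 1) = X t) (hZ1 : ∀ t, Z (t + 1) = Z t)
    (hP : ∀ t, PtS σ D lam (X t) (Z t)) (j : Fin k)
    (hF : NZ fun t => (D.f j).eval₂ σ (Z t)) (nX : ∀ i, NZ fun t => (D.g i).eval₂ σ (X t))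
    (i l : Fin (r + 1)) :
    (mkS hX hZ hX1 hZ1 hP).reg (symb (D.ent lam j i l)) =
      (D.g l).natDegree * pr (fun t => (D.f j).eval₂ σ (Z t)) (fun t => (D.g i).eval₂ σ (X t)) -
        (D.g i).natDegree *
          pr (fun t => (D.f j).eval₂ σ (Z t)) (fun t => (D.g l).eval₂ σ (X t)) := by
  have n1 := nz_pow (nX i) (D.g l).natDegree
  have n2 := nz_pow (nX l) (D.g i).natDegree
  rw [← pr_pow hF (nX i), ← pr_pow hF (nX l), ← pr_div hF n1 n2,
    ← pairing_eq_pr hF (n1.div n2), Torus.reg_symb]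
  unfold Torus.pair
  congr 1
  funext s θ
  fin_cases s
  · show (hP (θ 0)).evA (D.uf lam j : D.Open lam) = (D.f j).eval₂ σ (Z (θ 0))
    rw [PtS.evA_uf]
  · show (hP (θ 0)).evA ((D.ug lam i ^ (D.g l).natDegree / D.ug lam l ^ (D.g i).natDegree :
      (D.Open lam)ˣ) : D.Open lam) = (D.g i).eval₂ σ (X (θ 0)) ^ (D.g l).natDegree /
        (D.g l).eval₂ σ (X (θ 0)) ^ (D.g i).natDegree
    have h1 : (hP (θ 0)).evA ((D.ug lam i ^ (D.g l).natDegree / D.ug lam l ^ (D.g i).natDegree :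
        (D.Open lam)ˣ) : D.Open lam) *
        (hP (θ 0)).evA ((D.ug lam l ^ (D.g i).natDegree : (D.Open lam)ˣ) : D.Open lam) =
        (hP (θ 0)).evA ((D.ug lam i ^ (D.g l).natDegree : (D.Open lam)ˣ) : D.Open lam) := by
      rw [← map_mul, ← Units.val_mul, div_mul_cancel]
    rw [Units.val_pow_eq_pow_val, Units.val_pow_eq_pow_val, map_pow, map_pow, PtS.evA_ug,
      PtS.evA_ug] at h1
    rw [eq_div_iff (pow_ne_zero _ ((hP (θ 0)).ng l))]
    exact h1

end Pool.Agent.U759.TP
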