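import Pool.Agent.U759.TP.Ring
set_option autoImplicit false

/-!
The symbols `{f_j(z), g_i(x)^(e_l) / g_l(x)^(e_i)}` are unramified at all discrete valuations.
-/

namespace Pool.Agent.U759.TP

open scoped WithZero

open Polynomial

open Pool.Agent.TH826.MK (KQ symb unitPart Unramified)

/-- The quotient of a polynomial with integral coefficients by a monic polynomial with integral
coefficients has integral coefficients. -/
theorem exists_quot {K : Type*} [Field K] {N P : K[X]} (hN : N.Monic)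
    (iN : ∀ i, IsIntegral ℤ (N.coeff i)) (iP : ∀ i, IsIntegral ℤ (P.coeff i)) (h : N ∣ P) :
    ∃ Q : K[X], (∀ i, IsIntegral ℤ (Q.coeff i)) ∧ P = N * Q := by
  set O : Subring K := (integralClosure ℤ K).toSubring with hO
  have hi : Function.Injective O.subtype := Subtype.val_injective
  have lift : ∀ p : K[X], (∀ i, IsIntegral ℤ (p.coeff i)) → ∃ q : O[X], q.map O.subtype = p := by
    intro p hp
    refine ⟨p.toSubring O ?_, ?_⟩
    · intro y hy
      obtain ⟨i, -, rfl⟩ := Polynomial.mem_coeffs_iff.1 hy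
      exact hp i
    · refine Polynomial.ext fun i => ?_
      rw [Polynomial.coeff_map]
      exact Polynomial.coeff_toSubring _ _ _
  obtain ⟨N', hN'⟩ := lift N iN
  obtain ⟨P', hP'⟩ := lift P iP
  have hNm : N'.Monic := by
    have h1 : (N'.map O.subtype).Monic := by rw [hN']; exact hN
    exact Polynomial.monic_of_injective hi h1
  have hR : P' %ₘ N' = 0 := by
    refine Polynomial.map_injective O.subtype hi ?_
    rw [Polynomial.map_modByMonic _ hNm, Polynomial.map_zero, hN', hP']
    exact (modByMonic_eq_zero_iff_dvd hN).2 h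
  refine ⟨(P' /ₘ N').map O.subtype, fun i => ?_, ?_⟩
  · rw [Polynomial.coeff_map]
    exact ((P' /ₘ N').coeff i).2
  · have h1 := modByMonic_add_div P' N'
    rw [hR, zero_add] at h1
    rw [← hN', ← hP', ← Polynomial.map_mul, h1]

theorem isIntegral_coeff_pow {K : Type*} [Field K] {p : K[X]} (hp : ∀ i, IsIntegral ℤ (p.coeff i))
    (n l : ℕ) (i : ℕ) : IsIntegral ℤ (((p ^ n - 1) ^ l).coeff i) := by
  have hm : ∀ p : K[X], (∀ i, IsIntegral ℤ (p.coeff i)) ↔
      p ∈ Polynomial.lifts (integralClosure ℤ K).toSubring.subtype := by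
    intro p
    rw [Polynomial.lifts_iff_coeff_lifts]
    constructor
    · intro h i
      exact ⟨⟨_, h i⟩, rfl⟩
    · intro h i
      obtain ⟨y, hy⟩ := h i
      rw [← hy]
      exact y.2
  refine (hm _).2 ?_ i
  have h1 := (hm p).1 hp
  have hL : ∀ a b : K[X], a ∈ Polynomial.lifts (integralClosure ℤ K).toSubring.subtype →
      b ∈ Polynomial.lifts (integralClosure ℤ K).toSubring.subtype →
      a - b ∈ Polynomial.lifts (integralClosure ℤ K).toSubring.subtype := by
    intro a b ha hb
    obtain ⟨a', rfl⟩ := (Polynomial.mem_lifts _).1 ha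
    obtain ⟨b', rfl⟩ := (Polynomial.mem_lifts _).1 hb
    exact (Polynomial.mem_lifts _).2 ⟨a' - b', Polynomial.map_sub _⟩
  exact pow_mem (hL _ _ (pow_mem h1 n) (one_mem _)) l

section val

variable {K L : Type*} [Field K] [Field L] (c : K →+* L) (v : Valuation L ℤᵐ⁰)

theorem val_int {x : K} (hx : IsIntegral ℤ x) : v (c x) ≤ 1 :=
  Pool.Agent.TH826.MK.val_le_one_of_integral v (map_isIntegral_int _ hx)

theorem val_eval_int {F : K[X]} (hF : ∀ i, IsIntegral ℤ (F.coeff i)) {x : L} (hx : v x ≤ 1) :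
    v (F.eval₂ c x) ≤ 1 := by
  rw [Polynomial.eval₂_eq_sum_range]
  refine Valuation.map_sum_le v fun i _ => ?_
  rw [map_mul, map_pow]
  exact mul_le_one' (val_int c v (hF i)) (pow_le_one' hx _)

/-- The value of a monic polynomial at a large argument. -/
theorem val_eval_monic {F : K[X]} (hF : ∀ i, IsIntegral ℤ (F.coeff i)) (hm : F.Monic) {x : L}
    (hx : 1 < v x) : v (F.eval₂ c x) = v x ^ F.natDegree := by
  rw [Polynomial.eval₂_eq_sum_range, Finset.sum_range_succ, hm.coeff_natDegree, map_one, one_mul,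
    ← map_pow]
  rcases Nat.eq_zero_or_pos F.natDegree with h0 | h0
  · simp [h0]
  refine Valuation.map_add_eq_of_lt_right v ?_
  refine (Valuation.map_sum_le v (g := v x ^ (F.natDegree - 1)) fun i hi => ?_).trans_lt ?_
  · rw [map_mul, map_pow]
    calc v (c (F.coeff i)) * v x ^ i ≤ 1 * v x ^ (F.natDegree - 1) := by
          refine mul_le_mul' (val_int c v (hF i)) (pow_le_pow_right₀ hx.le ?_)
          have := Finset.mem_range.1 hi
          omega
      _ = _ := one_mul _
  · rw [map_pow]
    exact pow_lt_pow_right₀ hx (by omega)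

/-- The value of a polynomial at a large argument. -/
theorem val_eval_lt {F : K[X]} (hF : ∀ i, IsIntegral ℤ (F.coeff i)) {x : L} (hx : 1 < v x)
    {n : ℕ} (hn : F.natDegree < n) : v (F.eval₂ c x) < v x ^ n := by
  rw [Polynomial.eval₂_eq_sum_range]
  refine (Valuation.map_sum_le v (g := v x ^ F.natDegree) fun i hi => ?_).trans_lt
    (pow_lt_pow_right₀ hx hn)
  rw [map_mul, map_pow]
  calc v (c (F.coeff i)) * v x ^ i ≤ 1 * v x ^ F.natDegree := by
        refine mul_le_mul' (val_int c v (hF i)) (pow_le_pow_right₀ hx.le ?_)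
        have := Finset.mem_range.1 hi
        omega
    _ = _ := one_mul _

end val

theorem lifts_iff {K : Type*} [Field K] (p : K[X]) : (∀ i, IsIntegral ℤ (p.coeff i)) ↔
    p ∈ Polynomial.lifts (integralClosure ℤ K).toSubring.subtype := by
  rw [Polynomial.lifts_iff_coeff_lifts]
  constructor
  · intro h i
    exact ⟨⟨_, h i⟩, rfl⟩
  · intro h i
    obtain ⟨y, hy⟩ := h i
    rw [← hy]
    exact y.2

theorem isIntegral_coeff_pow' {K : Type*} [Field K] {p : K[X]}
    (hp : ∀ i, IsIntegral ℤ (p.coeff i)) (n : ℕ) (i : ℕ) : IsIntegral ℤ ((p ^ n).coeff i) :=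
  (lifts_iff _).2 (pow_mem ((lifts_iff p).1 hp) n) i

theorem isIntegral_coeff_sub {K : Type*} [Field K] {p q : K[X]}
    (hp : ∀ i, IsIntegral ℤ (p.coeff i)) (hq : ∀ i, IsIntegral ℤ (q.coeff i)) (i : ℕ) :
    IsIntegral ℤ ((p - q).coeff i) := by
  rw [coeff_sub]
  exact (hp i).sub (hq i)

variable {K : Type*} [Field K] {k r : ℕ} {D : Dat K k r} {lam : K}

theorem Dat.Ok.monicM (H : D.Ok) : D.M.Monic :=
  monic_prod_of_monic _ _ fun j _ => (H.monicf j).pow _

theorem Dat.Ok.natDegreeM (H : D.Ok) : D.M.natDegree = ∑ j, D.m j * (D.f j).natDegree := by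
  unfold Dat.M
  rw [natDegree_prod_of_monic _ _ fun j _ => (H.monicf j).pow _]
  exact Finset.sum_congr rfl fun j _ => (H.monicf j).natDegree_pow _

theorem Dat.Ok.intM (H : D.Ok) (i : ℕ) : IsIntegral ℤ (D.M.coeff i) := by
  have hm : ∀ p : K[X], (∀ i, IsIntegral ℤ (p.coeff i)) ↔
      p ∈ Polynomial.lifts (integralClosure ℤ K).toSubring.subtype := by
    intro p
    rw [Polynomial.lifts_iff_coeff_lifts]
    constructor
    · intro h i
      exact ⟨⟨_, h i⟩, rfl⟩
    · intro h i
      obtain ⟨y, hy⟩ := h i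
      rw [← hy]
      exact y.2
  refine (hm _).2 ?_ i
  exact prod_mem fun j _ => pow_mem ((hm _).1 (H.intf j)) _

section unram

variable {L : Type*} [Field L] (g : D.Open lam →+* L)

/-- the composite map from the coefficient field -/
noncomputable def cO : K →+* L := g.comp (D.cst lam)

/-- the image of `x` -/
noncomputable def xO : L := g (D.toO lam (D.xpol lam X))

/-- the image of `z` -/
noncomputable def zO : L := g (D.toO lam (D.zpol lam X))

theorem map_xpol (p : K[X]) : g (D.toO lam (D.xpol lam p)) = p.eval₂ (cO g) (xO g) := by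
  have h : (g.comp (D.toO lam)).comp (D.xpol lam) = Polynomial.eval₂RingHom (cO g) (xO g) := by
    refine Polynomial.ringHom_ext (fun a => ?_) ?_
    · rw [Polynomial.coe_eval₂RingHom, Polynomial.eval₂_C]
      rfl
    · rw [Polynomial.coe_eval₂RingHom, Polynomial.eval₂_X]
      rfl
  exact congrArg (fun h : K[X] →+* L => h p) h

theorem map_zpol (p : K[X]) : g (D.toO lam (D.zpol lam p)) = p.eval₂ (cO g) (zO g) := by
  have h : (g.comp (D.toO lam)).comp (D.zpol lam) = Polynomial.eval₂RingHom (cO g) (zO g) := by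
    refine Polynomial.ringHom_ext (fun a => ?_) ?_
    · rw [Polynomial.coe_eval₂RingHom, Polynomial.eval₂_C, RingHom.comp_apply,
        D.zpol_apply, Polynomial.map_C]
      rfl
    · rw [Polynomial.coe_eval₂RingHom, Polynomial.eval₂_X]
      rfl
  exact congrArg (fun h : K[X] →+* L => h p) h

theorem rel_map : D.N.eval₂ (cO g) (zO g) =
    cO g lam * D.G.eval₂ (cO g) (xO g) * D.M.eval₂ (cO g) (zO g) := by
  have h := congrArg (fun a => g (D.toO lam a)) (D.rel lam)
  simp only [map_mul] at h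
  rw [← map_zpol, h, ← map_zpol, ← map_xpol, map_xpol g (C lam), Polynomial.eval₂_C]

theorem val_symb (H : D.Ok) (hlam : IsIntegral ℤ lam) (v : Valuation L ℤᵐ⁰) (j : Fin k)
    (i l : Fin (r + 1)) :
    symb (fun s => Units.map (g : D.Open lam →* L) (D.ent lam j i l s)) ∈ unitPart v 2 := by
  set a : Fin 2 → Lˣ := fun s => Units.map (g : D.Open lam →* L) (D.ent lam j i l s) with ha
  set c := cO g with hc
  set x := xO g with hx
  set z := zO g with hz
  have hug : ∀ i, g (D.ug lam i : D.Open lam) = (D.g i).eval₂ c x := by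
    intro i
    rw [D.coe_ug, map_xpol]
  have hx0 : ∀ i, (D.g i).eval₂ c x ≠ 0 := by
    intro i
    rw [← hug]
    exact ((D.ug lam i).isUnit.map g).ne_zero
  have ha0 : (a 0 : L) = (D.f j).eval₂ c z := by
    rw [← map_zpol]
    rfl
  have ha1 : (a 1 : L) = (D.g i).eval₂ c x ^ (D.g l).natDegree /
      (D.g l).eval₂ c x ^ (D.g i).natDegree := by
    rw [← hug, ← hug]
    have h1 : a 1 = Units.map (g : D.Open lam →* L) (D.ug lam i) ^ (D.g l).natDegree /
        Units.map (g : D.Open lam →* L) (D.ug lam l) ^ (D.g i).natDegree := by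
      rw [← map_pow, ← map_pow]
      exact map_div (Units.map (g : D.Open lam →* L)) _ _
    rw [h1, Units.val_div_eq_div_val, Units.val_pow_eq_pow_val, Units.val_pow_eq_pow_val]
    rfl
  rcases lt_or_ge 1 (v x) with hxv | hxv
  · -- the points with `x = ∞`
    refine Pool.Agent.TH826.MK.mem_unitPart_of_oneUnit' v 1 a ?_
    rw [ha1]
    set P : K[X] := D.g i ^ (D.g l).natDegree with hP
    set R : K[X] := D.g l ^ (D.g i).natDegree with hR
    have hPm : P.Monic := (H.monicg i).pow _
    have hRm : R.Monic := (H.monicg l).pow _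
    have hPd : P.natDegree = (D.g i).natDegree * (D.g l).natDegree := by
      rw [hP, (H.monicg i).natDegree_pow, mul_comm]
    have hRd : R.natDegree = (D.g i).natDegree * (D.g l).natDegree := by
      rw [hR, (H.monicg l).natDegree_pow]
    have hpos : 0 < R.natDegree := by
      rw [hRd]
      exact Nat.mul_pos (H.degg i) (H.degg l)
    have iP : ∀ s, IsIntegral ℤ (P.coeff s) := isIntegral_coeff_pow' (H.intg i) _
    have iR : ∀ s, IsIntegral ℤ (R.coeff s) := isIntegral_coeff_pow' (H.intg l) _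
    have hRx : R.eval₂ c x = (D.g l).eval₂ c x ^ (D.g i).natDegree := by
      rw [hR, Polynomial.eval₂_pow]
    have hPx : P.eval₂ c x = (D.g i).eval₂ c x ^ (D.g l).natDegree := by
      rw [hP, Polynomial.eval₂_pow]
    have hR0 : R.eval₂ c x ≠ 0 := by
      rw [hRx]
      exact pow_ne_zero _ (hx0 l)
    have e : (D.g i).eval₂ c x ^ (D.g l).natDegree / (D.g l).eval₂ c x ^ (D.g i).natDegree - 1 =
        (P - R).eval₂ c x / R.eval₂ c x := by
      rw [Polynomial.eval₂_sub, ← hRx, ← hPx, sub_div, div_self hR0]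
    rw [e, map_div₀, val_eval_monic c v iR hRm hxv, div_lt_one₀ (pow_pos (zero_lt_one.trans hxv) _)]
    refine val_eval_lt c v (isIntegral_coeff_sub iP iR) hxv ?_
    by_cases hPR : P - R = 0
    · rw [hPR, natDegree_zero]
      exact hpos
    · have h1 := degree_sub_lt_left (p := P) (q := R)
        (by rw [degree_eq_natDegree hPm.ne_zero, degree_eq_natDegree hRm.ne_zero, hPd, hRd])
        hPm.ne_zero (by rw [hPm.leadingCoeff, hRm.leadingCoeff])
      have h2 := natDegree_lt_natDegree hPR h1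
      rw [hRd, ← hPd]
      exact h2
  have hG : v (D.G.eval₂ c x) ≤ 1 := val_eval_int c v H.intG hxv
  have hlG : v (c lam * D.G.eval₂ c x) ≤ 1 := by
    rw [map_mul]
    exact mul_le_one' (val_int c v hlam) hG
  have hrel : D.N.eval₂ c z = c lam * D.G.eval₂ c x * D.M.eval₂ c z := rel_map g
  -- `z` is integral
  have hzv : v z ≤ 1 := by
    by_contra hcon
    have hzv := not_le.1 hcon
    have h1 := val_eval_monic c v H.intN H.monicN hzv
    have h2 := val_eval_monic c v H.intM H.monicM hzv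
    rw [hrel, map_mul, h2, H.natDegreeM] at h1
    have h3 : v (c lam * D.G.eval₂ c x) * v z ^ (∑ j, D.m j * (D.f j).natDegree) ≤
        v z ^ (∑ j, D.m j * (D.f j).natDegree) := by
      calc _ ≤ 1 * v z ^ (∑ j, D.m j * (D.f j).natDegree) := mul_le_mul' hlG le_rfl
        _ = _ := one_mul _
    rw [h1] at h3
    exact absurd h3 (not_le.2 (pow_lt_pow_right₀ hzv H.deg))
  have hfle : ∀ j, v ((D.f j).eval₂ c z) ≤ 1 := fun j => val_eval_int c v (H.intf j) hzv
  have hMle : v (D.M.eval₂ c z) ≤ 1 := val_eval_int c v H.intM hzv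
  have hNM : v (D.N.eval₂ c z) ≤ v (D.M.eval₂ c z) := by
    rw [hrel, map_mul]
    calc _ ≤ 1 * v (D.M.eval₂ c z) := mul_le_mul' hlG le_rfl
      _ = _ := one_mul _
  -- the values of the `f_j` are torsion modulo `N`
  have htors : ∀ j, ∃ n l : ℕ, n ≠ 0 ∧ ∃ q : L, v q ≤ 1 ∧
      ((D.f j).eval₂ c z ^ n - 1) ^ l = D.N.eval₂ c z * q := by
    intro j
    obtain ⟨n, l, hn, hdvd⟩ := H.tors j
    obtain ⟨Q, hQ, hPQ⟩ := exists_quot H.monicN H.intN (isIntegral_coeff_pow (H.intf j) n l) hdvd
    refine ⟨n, l, hn, Q.eval₂ c z, val_eval_int c v hQ hzv, ?_⟩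
    rw [← Polynomial.eval₂_mul, ← hPQ, Polynomial.eval₂_pow, Polynomial.eval₂_sub,
      Polynomial.eval₂_pow, Polynomial.eval₂_one]
  have hf1 : ∀ j, v ((D.f j).eval₂ c z) = 1 := by
    intro j
    by_contra hcon
    have hlt : v ((D.f j).eval₂ c z) < 1 := lt_of_le_of_ne (hfle j) hcon
    obtain ⟨n, l, hn, q, hq, he⟩ := htors j
    have h1 : v ((D.f j).eval₂ c z ^ n - 1) = 1 := by
      rw [Valuation.map_sub_swap]
      refine Valuation.map_one_sub_of_lt v ?_
      rw [map_pow]
      exact pow_lt_one₀ zero_le hlt hn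
    have h2 := congrArg v he
    rw [map_pow, h1, one_pow, map_mul] at h2
    have h3 : v (D.M.eval₂ c z) < 1 := by
      unfold Dat.M
      rw [Polynomial.eval₂_finsetProd, map_prod, ← Finset.mul_prod_erase _ _ (Finset.mem_univ j)]
      refine mul_lt_one_of_lt_of_le ?_ (Finset.prod_le_one' fun j' _ => ?_)
      · rw [Polynomial.eval₂_pow, map_pow]
        exact pow_lt_one₀ zero_le hlt (H.pos j)
      · rw [Polynomial.eval₂_pow, map_pow]
        exact pow_le_one' (hfle j') _
    have h4 : v (D.N.eval₂ c z) * v q < 1 := mul_lt_one_of_lt_of_le (hNM.trans_lt h3) hq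
    exact h4.ne h2.symm
  have hle : ∀ s, v ((D.g s).eval₂ c x) ≤ 1 := fun s => val_eval_int c v (H.intg s) hxv
  by_cases hB : ∃ s : Fin (r + 1), v ((D.g s).eval₂ c x) < 1
  · obtain ⟨s, hs⟩ := hB
    have hGlt : v (D.G.eval₂ c x) < 1 := by
      obtain ⟨Q, hQ, hPQ⟩ := exists_quot (H.monicg s) (H.intg s) H.intG (H.dvd s)
      rw [hPQ, Polynomial.eval₂_mul, map_mul]
      exact mul_lt_one_of_lt_of_le hs (val_eval_int c v hQ hxv)
    have hN : v (D.N.eval₂ c z) < 1 := by
      rw [hrel, map_mul, map_mul]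
      refine mul_lt_one_of_lt_of_le ?_ hMle
      rw [mul_comm]
      exact mul_lt_one_of_lt_of_le hGlt (val_int c v hlam)
    obtain ⟨n, l, hn, q, hq, he⟩ := htors j
    refine Pool.Agent.TH826.MK.mem_unitPart_of_pow v 0 a hn ?_
    rw [ha0]
    have h1 : v (((D.f j).eval₂ c z ^ n - 1) ^ l) < 1 := by
      rw [he, map_mul]
      exact mul_lt_one_of_lt_of_le hN hq
    rw [map_pow] at h1
    by_contra hcon
    exact absurd h1 (not_lt.2 (one_le_pow₀ (not_lt.1 hcon)))
  · push Not at hB
    refine Submodule.subset_span ⟨a, fun s => ?_, rfl⟩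
    fin_cases s
    · show v (a 0 : L) = 1
      rw [ha0]
      exact hf1 j
    · show v (a 1 : L) = 1
      rw [ha1, map_div₀, map_pow, map_pow, le_antisymm (hle i) (hB i),
        le_antisymm (hle l) (hB l), one_pow, one_pow, div_one]

theorem symb_unramified (H : D.Ok) (hlam : IsIntegral ℤ lam) (j : Fin k) (i l : Fin (r + 1)) :
    KQ.map 2 g (symb (D.ent lam j i l)) ∈ Unramified L 2 := by
  rw [KQ.map_symb]
  unfold Unramified
  simp only [Submodule.mem_iInf]
  intro v _
  exact val_symb g H hlam v j i l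

end unram

end Pool.Agent.U759.TP
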